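import Pool.Agent.H362.SF.LimProof

/-!
# Automorphisms of rigid groups: algebra (helper362)
-/

set_option autoImplicit false

namespace Pool.Agent.H362.SF

open Pool.Agent.Y45.MON
open scoped Pointwise

theorem map_vv {r : ℕ} (w : WP r) {G G' : Type} [Group G] [Group G'] (φ : G →* G') (j : Fin r)
    (a b : G) : φ (vv w j a b) = vv w j (φ a) (φ b) := by
  simp [vv, Wj, X1, P0]

theorem vv_one {w : WP 2} (hw : w.δ 1 = 2) {G : Type} [Group G] (a : G) : vv w 1 a 1 = a := by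
  have h1 : P0 w.M1 a 1 = a ^ (w.M1 + 1) := by
    unfold P0
    rw [mul_one, inv_one, mul_one, ← pow_succ']
  have h2 : X1 w.M1 w.m2 a 1 = 1 := by
    unfold X1
    rw [h1, ← pow_mul]
    have : a * a ^ ((w.M1 + 1) * w.m2) * a⁻¹ = a ^ ((w.M1 + 1) * w.m2) := by
      rw [← pow_succ', pow_succ, mul_inv_cancel_right]
    rw [this, mul_inv_cancel]
  unfold vv Wj
  rw [h2, hw]
  simp only [one_pow, mul_one, inv_one]
  rw [pow_two, mul_inv_cancel_right]

theorem vv_one_one {w : WP 2} {G : Type} [Group G] (j : Fin 2) : vv w j (1 : G) 1 = 1 := by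
  simp [vv, Wj, X1, P0]

section rg

variable {r : ℕ} {w : WP r} {N : ℕ} {L : Type} [Group L]

/-- central elements are trivial -/
theorem RG.center (h : RG w N L) {a b : L} (hab : a * b ≠ b * a) {y : L}
    (hy : ∀ g : L, g * y = y * g) : y = 1 := by
  by_contra hne
  obtain ⟨c, hc⟩ := h.cen y hne
  obtain ⟨s, hs⟩ := hc a (hy a)
  obtain ⟨t, ht⟩ := hc b (hy b)
  apply hab
  rw [hs, ht, ← zpow_add, ← zpow_add, add_comm]

/-- some conjugate does not commute -/
theorem RG.exists_conj (h : RG w N L) {a b : L} (hab : a * b ≠ b * a) {x y : L} (hx : x ≠ 1)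
    (hy : y ≠ 1) : ∃ g : L, x * (g * y * g⁻¹) ≠ (g * y * g⁻¹) * x := by
  by_contra hcon
  push Not at hcon
  obtain ⟨c, hc⟩ := h.cen x hx
  have hcomm : ∀ g : L, (g * y * g⁻¹) * y = y * (g * y * g⁻¹) := by
    intro g
    obtain ⟨s, hs⟩ := hc _ (hcon g).symm
    obtain ⟨t, ht⟩ := hc _ (hcon 1).symm
    rw [one_mul, inv_one, mul_one] at ht
    rw [hs, ht, ← zpow_add, ← zpow_add, add_comm]
  exact hy (h.center hab fun g => h.mal y g hy (hcomm g))

/-- nested words -/
def nst (w : WP 2) {G : Type} [Group G] (z y : G) : ℕ → G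
  | 0 => y
  | k + 1 => vv w 0 z (nst w z y k)

theorem map_nst (w : WP 2) {G G' : Type} [Group G] [Group G'] (φ : G →* G') (z y : G) (k : ℕ) :
    φ (nst w z y k) = nst w (φ z) (φ y) k := by
  induction k with
  | zero => rfl
  | succ k ih => rw [nst, nst, map_vv, ih]

theorem RG.nst_nc {w : WP 2} (h : RG w N L) {z y : L} (hzy : z * y ≠ y * z) (k : ℕ) :
    z * nst w z y k ≠ nst w z y k * z := by
  induction k with
  | zero => exact hzy
  | succ k ih => exact (h.nc 0 _ _ ih).1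

theorem nst_rk {w : WP 2} (h : RG w N L) {rk : L → ℕ}
    (hrk : ∀ (j : Fin 2) (a b : L), a * b ≠ b * a →
      rk a < rk (vv w j a b) ∧ rk b < rk (vv w j a b)) {z y : L} (hzy : z * y ≠ y * z) (k : ℕ) :
    k ≤ rk (nst w z y k) := by
  induction k with
  | zero => exact Nat.zero_le _
  | succ k ih =>
    have := (hrk 0 _ _ (h.nst_nc hzy k)).2
    show k + 1 ≤ rk (vv w 0 z (nst w z y k))
    omega

theorem rg_infinite {w : WP 2} (h : RG w N L) {rk : L → ℕ}
    (hrk : ∀ (j : Fin 2) (a b : L), a * b ≠ b * a →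
      rk a < rk (vv w j a b) ∧ rk b < rk (vv w j a b)) {z y : L} (hzy : z * y ≠ y * z) :
    Infinite L := by
  by_contra hfin
  rw [not_infinite_iff_finite] at hfin
  obtain ⟨M, hM⟩ := (Set.finite_range rk).bddAbove
  have h1 := nst_rk h hrk hzy (M + 1)
  have h2 : rk (nst w z y (M + 1)) ≤ M := hM ⟨_, rfl⟩
  omega

end rg

/-- the subgroup on which `φ ^ i` is conjugation by `h` -/
def Fx {L : Type} [Group L] (φ : MulAut L) (p : ℕ × L) : Subgroup L where
  carrier := {b | (φ ^ p.1) b = p.2 * b * p.2⁻¹}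
  mul_mem' := by
    intro a b ha hb
    show (φ ^ p.1) (a * b) = p.2 * (a * b) * p.2⁻¹
    have ha' : (φ ^ p.1) a = p.2 * a * p.2⁻¹ := ha
    have hb' : (φ ^ p.1) b = p.2 * b * p.2⁻¹ := hb
    rw [map_mul, ha', hb']
    group
  one_mem' := by
    show (φ ^ p.1) 1 = p.2 * 1 * p.2⁻¹
    rw [map_one]
    group
  inv_mem' := by
    intro a ha
    show (φ ^ p.1) a⁻¹ = p.2 * a⁻¹ * p.2⁻¹
    have ha' : (φ ^ p.1) a = p.2 * a * p.2⁻¹ := ha
    rw [map_inv, ha']
    group

theorem mem_Fx {L : Type} [Group L] {φ : MulAut L} {p : ℕ × L} {b : L} :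
    b ∈ Fx φ p ↔ (φ ^ p.1) b = p.2 * b * p.2⁻¹ := Iff.rfl

section pair

variable {r : ℕ} {w : WP r} {N : ℕ} {L : Type} [Group L]

/-- centralizers of nontrivial elements are finite -/
theorem RG.finite_of_comm (h : RG w N L) (hN : 0 < N) {a : L} (ha : a ≠ 1) (K : Subgroup L)
    (hK : ∀ b ∈ K, b * a = a * b) : (K : Set L).Finite := by
  obtain ⟨c, hc⟩ := h.cen a ha
  have hfo : IsOfFinOrder c := isOfFinOrder_iff_pow_eq_one.2 ⟨N, hN, h.exp c⟩
  have h1 : ((Subgroup.zpowers c : Subgroup L) : Set L).Finite := hfo.finite_zpowers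
  refine h1.subset ?_
  intro b hb
  obtain ⟨s, hs⟩ := hc b (hK b hb)
  exact ⟨s, hs.symm⟩

theorem infinite_of_finiteIndex [Infinite L] (K : Subgroup L) [K.FiniteIndex] :
    ¬ (K : Set L).Finite := by
  intro hf
  have h1 : Finite K := hf.to_subtype
  have h3 : Finite L := (Subgroup.finite_iff_finite_and_finiteIndex (H := K)).2 ⟨h1, inferInstance⟩
  exact not_finite L

/-- an automorphism which agrees with an inner one on a subgroup of finite index is inner -/
theorem RG.fx_top (h : RG w N L) (hN : 0 < N) [Infinite L] (φ : MulAut L) (p : ℕ × L)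
    [hfi : (Fx φ p).FiniteIndex] (g : L) : (φ ^ p.1) g = p.2 * g * p.2⁻¹ := by
  obtain ⟨d, hd⟩ : ∃ d, d = g⁻¹ * (p.2⁻¹ * (φ ^ p.1) g * p.2) := ⟨_, rfl⟩
  have hfi' : (Fx φ p).normalCore.FiniteIndex := Subgroup.finiteIndex_normalCore _
  have key : ∀ k ∈ (Fx φ p).normalCore, k * d = d * k := by
    intro k hk
    have h1 : g * k * g⁻¹ ∈ Fx φ p :=
      Subgroup.normalCore_le _ ((Subgroup.normalCore_normal _).conj_mem k hk g)
    have h2 : k ∈ Fx φ p := Subgroup.normalCore_le _ hk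
    rw [mem_Fx] at h1 h2
    rw [map_mul, map_mul, map_inv, h2] at h1
    obtain ⟨y, hy⟩ : ∃ y, y = (φ ^ p.1) g := ⟨_, rfl⟩
    rw [← hy] at h1 hd
    rw [hd]
    have h3 : y * (p.2 * k * p.2⁻¹) = p.2 * (g * k * g⁻¹) * p.2⁻¹ * y := by
      rw [← h1]; group
    have h4 : g⁻¹ * (p.2⁻¹ * y * p.2) * k = g⁻¹ * p.2⁻¹ * (y * (p.2 * k * p.2⁻¹)) * p.2 := by
      group
    rw [h4, h3]
    group
  by_cases hd1 : d = 1
  · rw [hd1] at hd
    have h5 : g = p.2⁻¹ * (φ ^ p.1) g * p.2 := by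
      have := hd.symm
      rw [inv_mul_eq_one] at this
      exact this
    conv_rhs => rw [h5]
    group
  · exact absurd (h.finite_of_comm hN hd1 _ key) (infinite_of_finiteIndex _)

/-- if the powers `φ ^ i`, `0 < i < k0`, are not inner then some pair is not mapped to a conjugate
pair by any of them -/
theorem RG.exists_pair (h : RG w N L) (hN : 0 < N) [Infinite L] {a0 b0 : L}
    (hab : a0 * b0 ≠ b0 * a0) (φ : MulAut L) (k0 : ℕ)
    (hni : ∀ i, 1 ≤ i → i < k0 → ¬ ∃ c : L, ∀ b, (φ ^ i) b = c * b * c⁻¹) :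
    ∃ A B : L, A * B ≠ B * A ∧ ∀ i, 1 ≤ i → i < k0 →
      ¬ ∃ c : L, (φ ^ i) A = c * A * c⁻¹ ∧ (φ ^ i) B = c * B * c⁻¹ := by
  classical
  by_contra hcon
  push Not at hcon
  have ha0 : a0 ≠ 1 := by
    rintro rfl
    simp at hab
  -- the finite set of pairs
  let P : Set (ℕ × L) := {p | p.1 < k0 ∧ 1 ≤ p.1 ∧ (φ ^ p.1) a0 = p.2 * a0 * p.2⁻¹}
  have hPf : P.Finite := by
    have h1 : P ⊆ ⋃ i ∈ Finset.range k0, (Prod.mk i) '' {c : L | (φ ^ i) a0 = c * a0 * c⁻¹} := by
      rintro ⟨i, c⟩ ⟨h1, -, h2⟩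
      simp only [Set.mem_iUnion]
      exact ⟨i, Finset.mem_range.2 h1, c, h2, rfl⟩
    refine Set.Finite.subset ?_ h1
    refine Set.Finite.biUnion (Finset.finite_toSet _) ?_
    intro i _
    apply Set.Finite.image
    by_cases hne : ∃ c1 : L, (φ ^ i) a0 = c1 * a0 * c1⁻¹
    · obtain ⟨c1, hc1⟩ := hne
      have h2 : (Subgroup.centralizer {a0} : Set L).Finite := by
        refine h.finite_of_comm hN ha0 _ ?_
        intro b hb
        exact (Subgroup.mem_centralizer_iff.1 hb a0 rfl).symm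
      refine ((h2.image (fun y => c1 * y))).subset ?_
      intro c hc
      refine ⟨c1⁻¹ * c, ?_, by simp⟩
      rw [SetLike.mem_coe, Subgroup.mem_centralizer_iff]
      intro y hy
      rw [Set.mem_singleton_iff] at hy
      subst hy
      have h3 : c1 * y * c1⁻¹ = c * y * c⁻¹ := by rw [← hc1]; exact hc
      have h4 : y * (c1⁻¹ * c) = c1⁻¹ * (c1 * y * c1⁻¹) * c := by group
      rw [h4, h3]
      group
    · convert Set.finite_empty
      rw [Set.eq_empty_iff_forall_notMem]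
      intro c hc
      exact hne ⟨c, hc⟩
  let s : Finset (ℕ × L) := insert (0, a0) hPf.toFinset
  have hcov : ⋃ p ∈ s, (1 : L) • ((Fx φ p : Subgroup L) : Set L) = Set.univ := by
    rw [Set.eq_univ_iff_forall]
    intro b
    simp only [Set.mem_iUnion, one_smul]
    by_cases hb : a0 * b = b * a0
    · refine ⟨(0, a0), Finset.mem_insert_self _ _, ?_⟩
      rw [SetLike.mem_coe, mem_Fx]
      simp only [pow_zero, MulAut.one_apply]
      rw [hb]
      group
    · obtain ⟨i, h1, h2, c, h3, h4⟩ := hcon a0 b hb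
      refine ⟨(i, c), Finset.mem_insert_of_mem (hPf.mem_toFinset.2 ⟨h2, h1, h3⟩), ?_⟩
      rw [SetLike.mem_coe, mem_Fx]
      exact h4
  obtain ⟨p, hp, hfi⟩ := Subgroup.exists_finiteIndex_of_leftCoset_cover (G := L)
    (H := fun p => Fx φ p) (g := fun _ => 1) (s := s) hcov
  rcases Finset.mem_insert.1 hp with rfl | hp
  · have h1 := h.fx_top hN φ (0, a0) b0
    simp only [pow_zero, MulAut.one_apply] at h1
    apply hab
    rw [eq_mul_inv_iff_mul_eq] at h1
    exact h1.symm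
  · obtain ⟨h1, h2, -⟩ := hPf.mem_toFinset.1 hp
    exact hni p.1 h2 h1 ⟨p.2, fun g => h.fx_top hN φ p g⟩

end pair

end Pool.Agent.H362.SF
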