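import Pool.Agent.H362.SF.Step
import Pool.Graph.R_seed8.Y872.MON.LimB

/-!
# The limit of a sequence of quotients with arbitrary exponents (helper362)

Adaptation of `Pool.Agent.Y872.MON` (job LimB of project MON): the exponent functions of the steps
are arbitrary; instead of colours we keep the classes of the words.
-/

set_option autoImplicit false

namespace Pool.Agent.H362.SF

open Pool.Agent.TH54.BU Pool.Agent.Y45.MON Pool.Agent.Y872.MON

/-- a sequence of groups -/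
structure SqG {r : ℕ} (w : WP r) (R0 N : ℕ) (G : ℕ → Type) [∀ n, Group (G n)]
    (H : ∀ n, GH (G n)) (f : ∀ n, G n →* G (n + 1)) (ef : ∀ n, G n → ℕ) (Xs : ∀ n, Set (G n)) :
    Prop where
  free : ∀ g : G 0, IsOfFinOrder g → g = 1
  tor : ∀ n, Tor (G n) N
  st : ∀ n, StepX w R0 (ef n) (Xs n) (H n) (H (n + 1)) (f n)
  ts : ∀ (n : ℕ) (g : G n), IsOfFinOrder g → ∃ u : G n, Sp (H n) (u * g * u⁻¹)
  exd : ∀ n g, ef n g ∣ N ∧ 2 ≤ ef n g
  exc : ∀ n g u, ef n (u * g * u⁻¹) = ef n g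
  exi : ∀ n g, ef n g⁻¹ = ef n g

/-- the sequence and its limit -/
structure LDG {r : ℕ} (w : WP r) (R0 N : ℕ) (G : ℕ → Type) [∀ n, Group (G n)]
    (H : ∀ n, GH (G n)) (f : ∀ n, G n →* G (n + 1)) (ef : ∀ n, G n → ℕ) (Xs : ∀ n, Set (G n))
    (L : Type) [Group L] (π : ∀ n, G n →* L) : Prop where
  sq : SqG w R0 N G H f ef Xs
  R1 : 1 ≤ R0
  odd : Odd N
  sur : ∀ n, Function.Surjective (π n)
  cmp : ∀ n g, π (n + 1) (f n g) = π n g
  ker : ∀ n g, π n g = 1 → Dies f n g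

theorem odd_three {N : ℕ} (h : Odd N) (q : ℕ) (hq : q.Prime) (hd : q ∣ N) : 3 ≤ q := by
  have h1 : Odd q := Odd.of_dvd_nat h hd
  have h2 := hq.two_le
  rcases Nat.lt_or_ge 2 q with h3 | h3
  · exact h3
  · exfalso
    have : q = 2 := by omega
    rw [this] at h1
    exact absurd h1 (by decide)

variable {r : ℕ} {w : WP r} {R0 N : ℕ} {G : ℕ → Type} [∀ n, Group (G n)] {H : ∀ n, GH (G n)}
  {f : ∀ n, G n →* G (n + 1)} {ef : ∀ n, G n → ℕ} {Xs : ∀ n, Set (G n)} {L : Type} [Group L]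
  {π : ∀ n, G n →* L}

namespace LDG

theorem inj1 (D : LDG w R0 N G H f ef Xs L π) (n : ℕ) (g : G n) (hg : IsOfFinOrder g)
    (h : f n g = 1) : g = 1 := by
  obtain ⟨u, hu⟩ := D.sq.ts n g hg
  have h1 := hu 1
  rw [zpow_one] at h1
  have h2 : f n (u * g * u⁻¹) = 1 := by
    rw [map_mul, map_mul, h, mul_one, map_inv, mul_inv_cancel]
  have h3 := (D.sq.st n).small _ (h1.trans (by norm_num)) h2
  exact conj_eq_one_iff.1 h3

theorem injt (D : LDG w R0 N G H f ef Xs L π) : ∀ (n : ℕ) (g : G n), IsOfFinOrder g →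
    π n g = 1 → g = 1 := by
  have key : ∀ (n : ℕ) (g : G n), Dies f n g → IsOfFinOrder g → g = 1 := by
    intro n g h
    induction h with
    | one n => intro _; rfl
    | step n g h ih => intro hg; exact D.inj1 n g hg (ih (MonoidHom.isOfFinOrder (f n) hg))
  exact fun n g hg h => key n g (D.ker n g h) hg

theorem short_ne (D : LDG w R0 N G H f ef Xs L π) : ∀ (n : ℕ) (g : G n),
    (H n).len g ≤ 20 → g ≠ 1 → π n g ≠ 1 := by
  have key : ∀ (n : ℕ) (g : G n), Dies f n g → (H n).len g ≤ 20 → g = 1 := by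
    intro n g h
    induction h with
    | one n => intro _; rfl
    | step n g h ih =>
      intro hl
      have h1 := (D.sq.st n).len g
      have h2 := ih (by omega)
      exact (D.sq.st n).small g hl h2
  exact fun n g h1 h2 h3 => h2 (key n g (D.ker n g h3) h1)

theorem ctt (D : LDG w R0 N G H f ef Xs L π) : ∀ (n : ℕ) (g g' : G n) (u0 : L),
    IsOfFinOrder g → IsOfFinOrder g' → g' ≠ 1 → u0 * π n g * u0⁻¹ = π n g' →
    ∃ u : G n, π n u = u0 ∧ u * g * u⁻¹ = g' := by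
  have key : ∀ (n : ℕ) (h : G n), Dies f n h → ∀ g g' u : G n, h = u * g * u⁻¹ * g'⁻¹ →
      IsOfFinOrder g → IsOfFinOrder g' → g' ≠ 1 →
      ∃ u' : G n, π n u' = π n u ∧ u' * g * u'⁻¹ = g' := by
    intro n h hh
    induction hh with
    | one n =>
      intro g g' u he _ _ _
      exact ⟨u, rfl, mul_inv_eq_one.1 he.symm⟩
    | step n h hd ih =>
      intro g g' u he hg hg' h1
      have h2 : f n g' ≠ 1 := fun h => h1 (D.inj1 n g' hg' h)
      obtain ⟨v, hv1, hv2⟩ := ih (f n g) (f n g') (f n u) (by rw [he]; simp)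
        (MonoidHom.isOfFinOrder _ hg) (MonoidHom.isOfFinOrder _ hg') h2
      obtain ⟨v0, rfl⟩ := (D.sq.st n).surj v
      obtain ⟨u', hu1, hu2⟩ := (D.sq.st n).ctt g g' v0 hg hg' h1
        (by rw [map_mul, map_mul, map_inv]; exact hv2)
      refine ⟨u', ?_, hu2⟩
      rw [← D.cmp n u', hu1, hv1, D.cmp]
  intro n g g' u0 hg hg' h1 h
  obtain ⟨u, rfl⟩ := D.sur n u0
  exact key n (u * g * u⁻¹ * g'⁻¹)
    (D.ker _ _ (by rw [map_mul, map_mul, map_mul, map_inv, map_inv, h, mul_inv_cancel]))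
    g g' u rfl hg hg' h1

theorem ev (D : LDG w R0 N G H f ef Xs L π) : ∀ (k n : ℕ) (a b : G n),
    (H n).len a ≤ k → (H n).len (P0 w.M1 a b) ≤ k → ∃ (m : ℕ) (a' b' : G m),
      π m a' = π n a ∧ π m b' = π n b ∧ IsOfFinOrder a' ∧ IsOfFinOrder (P0 w.M1 a' b') := by
  intro k
  induction k using Nat.strong_induction_on with
  | _ k ih =>
    intro n a b ha hb
    by_cases hk : k ≤ 1
    · refine ⟨n + 1, f n a, f n b, D.cmp n a, D.cmp n b, (D.sq.st n).kill a (ha.trans hk), ?_⟩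
      have := (D.sq.st n).kill _ (hb.trans hk)
      rwa [map_P0] at this
    · have h1 := (D.sq.st n).len a
      have h2 := (D.sq.st n).len (P0 w.M1 a b)
      rw [map_P0] at h2
      obtain ⟨m, a', b', h3, h4, h5, h6⟩ := ih ((k + 1) / 2) (by omega) (n + 1) (f n a) (f n b)
        (by omega) (by omega)
      exact ⟨m, a', b', h3.trans (D.cmp n a), h4.trans (D.cmp n b), h5, h6⟩

theorem ex (D : LDG w R0 N G H f ef Xs L π) (a : L) :
    ∃ (n : ℕ) (g : G n), IsOfFinOrder g ∧ π n g = a := by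
  obtain ⟨a0, rfl⟩ := D.sur 0 a
  obtain ⟨m, a', b', h1, -, h3, -⟩ := D.ev (max ((H 0).len a0) ((H 0).len (P0 w.M1 a0 1))) 0 a0 1
    (le_max_left _ _) (le_max_right _ _)
  exact ⟨m, a', h3, h1⟩

theorem rk_mem (D : LDG w R0 N G H f ef Xs L π) (a : L) :
    ∃ g : G (rk π a), IsOfFinOrder g ∧ π (rk π a) g = a :=
  Nat.sInf_mem (s := {n | ∃ g : G n, IsOfFinOrder g ∧ π n g = a}) (D.ex a)

theorem push (D : LDG w R0 N G H f ef Xs L π) (n m : ℕ) (h : n ≤ m) :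
    ∀ g : G n, IsOfFinOrder g → ∃ g' : G m, IsOfFinOrder g' ∧ π m g' = π n g := by
  induction m, h using Nat.le_induction with
  | base => exact fun g hg => ⟨g, hg, rfl⟩
  | succ m hm ih =>
    intro g hg
    obtain ⟨g', h1, h2⟩ := ih g hg
    exact ⟨f m g', MonoidHom.isOfFinOrder _ h1, (D.cmp m g').trans h2⟩

theorem rk_conj_le (D : LDG w R0 N G H f ef Xs L π) (h a : L) :
    rk π (h * a * h⁻¹) ≤ rk π a := by
  obtain ⟨g, hg, hga⟩ := D.rk_mem a
  obtain ⟨u, hu⟩ := D.sur (rk π a) h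
  have e : h * a * h⁻¹ = π (rk π a) (u * g * u⁻¹) := by simp [hu, hga]
  rw [e]
  exact rk_le (cf _ _ hg)

theorem rk_conj (D : LDG w R0 N G H f ef Xs L π) (h a : L) :
    rk π (h * a * h⁻¹) = rk π a := by
  apply le_antisymm (D.rk_conj_le h a)
  have := D.rk_conj_le h⁻¹ (h * a * h⁻¹)
  rwa [show h⁻¹ * (h * a * h⁻¹) * h⁻¹⁻¹ = a by group] at this

theorem N0 (D : LDG w R0 N G H f ef Xs L π) : N ≠ 0 := by
  intro h
  have := D.odd
  rw [h] at this
  exact absurd this (by decide)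

theorem ex_pos (D : LDG w R0 N G H f ef Xs L π) (n : ℕ) (x : G n) : 0 < ef n x := by
  have := (D.sq.exd n x).2
  omega

theorem torX0 (D : LDG w R0 N G H f ef Xs L π) (n : ℕ) (x : G n) (hx : x ∈ Xs n)
    (k : ℤ) : IsOfFinOrder (f n (x ^ k)) := by
  rw [isOfFinOrder_iff_pow_eq_one]
  refine ⟨ef n x, D.ex_pos n x, ?_⟩
  rw [← map_pow, ← zpow_natCast, ← zpow_mul, (D.sq.st n).ord x hx]
  exact Dvd.intro_left _ rfl

theorem torX (D : LDG w R0 N G H f ef Xs L π) (n : ℕ) (x : G n) (hx : x ∈ Xs n)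
    (u : G n) (k : ℤ) : IsOfFinOrder (f n (u * x ^ k * u⁻¹)) := by
  rw [map_mul, map_mul, map_inv]
  exact cf _ _ (D.torX0 n x hx k)

theorem oneX (n : ℕ) (x u : G n) (k : ℤ) : f n (u * x ^ k * u⁻¹) = 1 ↔ f n (x ^ k) = 1 := by
  rw [map_mul, map_mul, map_inv, conj_eq_one_iff]

theorem powX (D : LDG w R0 N G H f ef Xs L π) (n : ℕ) (x : G n) (hx : x ∈ Xs n)
    (u : G n) (k : ℤ) : π n (u * x ^ k * u⁻¹) = 1 ↔ f n (x ^ k) = 1 := by
  rw [← oneX (f := f) n x u k, ← D.cmp]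
  constructor
  · intro h
    exact D.injt _ _ (D.torX n x hx u k) h
  · intro h
    rw [h, map_one]

theorem conj_conj (n : ℕ) (c0 u u' x : G n) (k : ℤ)
    (g : G n) (h : f n c0 * f n (u' * x ^ k * u'⁻¹) * (f n c0)⁻¹ = f n (u * g * u⁻¹)) :
    f n (u⁻¹ * c0 * u' * x ^ k * (u⁻¹ * c0 * u')⁻¹) = f n g := by
  rw [← map_inv, ← map_mul, ← map_mul] at h
  have e : u⁻¹ * c0 * u' * x ^ k * (u⁻¹ * c0 * u')⁻¹ =
      u⁻¹ * (c0 * (u' * x ^ k * u'⁻¹) * c0⁻¹) * u := by group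
  rw [e, map_mul, map_mul, h, ← map_mul, ← map_mul]
  congr 1
  group

theorem centr (D : LDG w R0 N G H f ef Xs L π) (n : ℕ) (x : G n) (hx : x ∈ Xs n)
    (u : G n) (k : ℤ) (h1 : f n (x ^ k) ≠ 1) (b : L)
    (hb : b * π n (u * x ^ k * u⁻¹) = π n (u * x ^ k * u⁻¹) * b) :
    ∃ s : ℤ, b = π n (u * x ^ s * u⁻¹) := by
  have hg := D.torX n x hx u k
  have h2 : f n (u * x ^ k * u⁻¹) ≠ 1 := fun h => h1 ((oneX n x u k).1 h)
  obtain ⟨c, hc1, hc2⟩ := D.ctt (n + 1) _ _ b hg hg h2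
    (by rw [D.cmp, hb, mul_assoc, mul_inv_cancel, mul_one])
  obtain ⟨c0, rfl⟩ := (D.sq.st n).surj c
  obtain ⟨-, ⟨s, hs⟩, -⟩ := (D.sq.st n).cnn x hx x hx (u⁻¹ * c0 * u) k k h1
    (conj_conj n c0 u u x k _ hc2)
  refine ⟨s, ?_⟩
  rw [← hc1, ← D.cmp n (u * x ^ s * u⁻¹), map_mul (f n), map_mul (f n), ← hs, ← map_mul,
    ← map_mul]
  congr 2
  group

theorem sameX (D : LDG w R0 N G H f ef Xs L π) (n : ℕ) (x x' : G n) (hx : x ∈ Xs n)
    (hx' : x' ∈ Xs n) (u u' : G n) (k l : ℤ) (h1 : f n (x ^ k) ≠ 1)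
    (he : π n (u' * x' ^ l * u'⁻¹) = π n (u * x ^ k * u⁻¹)) : x = x' := by
  have h2 : f n (u * x ^ k * u⁻¹) ≠ 1 := fun h => h1 ((oneX n x u k).1 h)
  obtain ⟨c, hc1, hc2⟩ := D.ctt (n + 1) (f n (u' * x' ^ l * u'⁻¹)) (f n (u * x ^ k * u⁻¹)) 1
    (D.torX n x' hx' u' l) (D.torX n x hx u k) h2
    (by rw [D.cmp, D.cmp, one_mul, inv_one, mul_one, he])
  obtain ⟨c0, rfl⟩ := (D.sq.st n).surj c
  exact ((D.sq.st n).cnn x hx x' hx' (u⁻¹ * c0 * u') k l h1 (conj_conj n c0 u u' x' l _ hc2)).1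

theorem rkX (D : LDG w R0 N G H f ef Xs L π) (n : ℕ) (x : G n) (hx : x ∈ Xs n)
    (u : G n) (k : ℤ) (h1 : f n (x ^ k) ≠ 1) : rk π (π n (u * x ^ k * u⁻¹)) = n + 1 := by
  apply le_antisymm
  · rw [← D.cmp]
    exact rk_le (D.torX n x hx u k)
  · by_contra h
    have h3 : rk π (π n (u * x ^ k * u⁻¹)) ≤ n := by omega
    obtain ⟨g0, hg0, hg1⟩ := D.rk_mem (π n (u * x ^ k * u⁻¹))
    obtain ⟨g, hg2, hg3⟩ := D.push _ n h3 g0 hg0
    have hg4 : π n g = π n (u * x ^ k * u⁻¹) := hg3.trans hg1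
    have h4 : f n g ≠ 1 := by
      intro h5
      have h6 : π n g = 1 := by rw [← D.cmp, h5, map_one]
      rw [hg4] at h6
      exact h1 ((D.powX n x hx u k).1 h6)
    obtain ⟨c, hc1, hc2⟩ := D.ctt (n + 1) (f n (u * x ^ k * u⁻¹)) (f n g) 1
      (D.torX n x hx u k) (MonoidHom.isOfFinOrder _ hg2) h4
      (by rw [D.cmp, D.cmp, one_mul, inv_one, mul_one, hg4])
    obtain ⟨c0, rfl⟩ := (D.sq.st n).surj c
    apply h1
    apply (D.sq.st n).cno x hx g (c0 * u) k hg2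
    rw [← hc2, ← map_inv, ← map_mul, ← map_mul]
    congr 1
    group

theorem rk_comm (D : LDG w R0 N G H f ef Xs L π) {a b : L} (ha : a ≠ 1)
    (h : b * a = a * b) : rk π b ≤ rk π a := by
  obtain ⟨g, hg, hga⟩ := D.rk_mem a
  have hmin : ∀ (m : ℕ) (g : G m), IsOfFinOrder g → π m g = a → rk π a ≤ m :=
    fun m g h1 h2 => h2 ▸ rk_le h1
  generalize rk π a = m at *
  cases m with
  | zero => exact absurd (by rw [← hga, D.sq.free g hg, map_one]) ha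
  | succ n =>
    rcases (D.sq.st n).tor g hg with ⟨g0, h1, h2⟩ | ⟨x, hx, u, k, h1⟩
    · have := hmin n g0 h2 (by rw [← hga, ← h1, D.cmp])
      omega
    · have h3 : f n (x ^ k) ≠ 1 := by
        intro h3
        apply ha
        rw [← hga, ← h1, (oneX n x u k).2 h3, map_one]
      obtain ⟨s, rfl⟩ := D.centr n x hx u k h3 b (by rw [← D.cmp, h1, hga]; exact h)
      rw [← D.cmp]
      exact rk_le (D.torX n x hx u s)

theorem main (D : LDG w R0 N G H f ef Xs L π) (A B : L) (hAB : A * B ≠ B * A) :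
    ∃ (n : ℕ) (h0 : L) (a b X : G (n + 1)), Gd (H (n + 1)) a b X ∧ IsOfFinOrder a ∧
      π (n + 1) a = h0 * A * h0⁻¹ ∧ π (n + 1) b = h0 * B * h0⁻¹ ∧
      IsOfFinOrder (f (n + 1) b) ∧
      X1 w.M1 w.m2 (h0 * A * h0⁻¹) (h0 * B * h0⁻¹) = π (n + 1) X := by
  let S : ℕ → Prop := fun m => ∃ (a b : G m) (h : L), π m a = h * A * h⁻¹ ∧
    π m b = h * B * h⁻¹ ∧ IsOfFinOrder a ∧ IsOfFinOrder (P0 w.M1 a b)
  have hS : ∃ m, S m := by
    obtain ⟨a, ha⟩ := D.sur 0 A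
    obtain ⟨b, hb⟩ := D.sur 0 B
    obtain ⟨m, a', b', h1, h2, h3, h4⟩ := D.ev (max ((H 0).len a) ((H 0).len (P0 w.M1 a b))) 0
      a b (le_max_left _ _) (le_max_right _ _)
    exact ⟨m, a', b', 1, by simp [h1, ha], by simp [h2, hb], h3, h4⟩
  classical
  obtain ⟨m, hm, hmin⟩ : ∃ m, S m ∧ ∀ k < m, ¬ S k :=
    ⟨Nat.find hS, Nat.find_spec hS, fun k hk => Nat.find_min hS hk⟩
  obtain ⟨a', b', h, h1, h2, h3, h4⟩ := hm
  have hA : A ≠ 1 := by rintro rfl; simp at hAB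
  have hB : B ≠ 1 := by rintro rfl; simp at hAB
  cases m with
  | zero =>
    exfalso
    have h5 : a' = 1 := D.sq.free a' h3
    rw [h5, map_one] at h1
    exact hA (conj_eq_one_iff.1 h1.symm)
  | succ n =>
    have hab : a' * b' ≠ b' * a' := by
      intro e
      apply hAB
      have e1 := congrArg (π (n + 1)) e
      rw [map_mul, map_mul, h1, h2] at e1
      have e2 : h * (A * B) * h⁻¹ = h * (B * A) * h⁻¹ := by
        rw [show h * (A * B) * h⁻¹ = h * A * h⁻¹ * (h * B * h⁻¹) by group, e1]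
        group
      exact mul_left_cancel (mul_right_cancel e2)
    obtain ⟨a1, b1, k, h5, h6, h7, h8, h9⟩ := (D.sq.st n).pb a' b' h3 hab h4
    have e1 : π (n + 1) (f n a1) = (π (n + 1) k * h) * A * (π (n + 1) k * h)⁻¹ := by
      rw [h8, map_mul, map_mul, map_inv, h1]
      group
    have e2 : π (n + 1) (f n b1) = (π (n + 1) k * h) * B * (π (n + 1) k * h)⁻¹ := by
      rw [h9, map_mul, map_mul, map_inv, h2]
      group
    have ha1 : a1 ≠ 1 := by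
      rintro rfl
      rw [map_one, map_one] at e1
      exact hA (conj_eq_one_iff.1 e1.symm)
    have hb1 : b1 ≠ 1 := by
      rintro rfl
      rw [map_one, map_one] at e2
      exact hB (conj_eq_one_iff.1 e2.symm)
    have h10 : ¬ IsOfFinOrder (P0 w.M1 a1 b1) := fun h10 => hmin n (by omega)
      ⟨a1, b1, π (n + 1) k * h, (D.cmp n a1).symm.trans e1, (D.cmp n b1).symm.trans e2, h5, h10⟩
    have h11 : IsOfFinOrder (f n (P0 w.M1 a1 b1)) := by
      rw [map_P0, h8, h9, conj_P0]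
      exact cf _ _ h4
    have l1 : (H n).len a1 ≤ 1 := by simpa using h6 1
    have l2 : (H n).len (a1 ^ 2) ≤ 1 := by
      have := h6 2
      rwa [zpow_ofNat] at this
    obtain ⟨x1, x2, x3⟩ := (D.sq.st n).xa a1 b1 h5 h6 h7 h10 h11
    have l3 : (H (n + 1)).len (f n b1) ≤ 1 := (D.sq.st n).len0 _ h7
    refine ⟨n, π (n + 1) k * h, f n a1, f n b1, f n (X1 w.M1 w.m2 a1 b1), ⟨?_, l3, x2, x1, ?_,
      ?_, ?_⟩, MonoidHom.isOfFinOrder _ h5, e1, e2, (D.sq.st (n + 1)).kill _ l3, ?_⟩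
    · exact (D.sq.st n).len0 _ (l1.trans D.R1)
    · exact x3 a1 (l1.trans D.R1) ha1
    · have := x3 (a1 ^ 2) (l2.trans D.R1) (LD.sq_ne (odd_three D.odd) (D.sq.tor n a1 h5) ha1)
      rwa [map_pow] at this
    · exact x3 b1 h7 hb1
    · rw [← e1, ← e2, map_X1, map_X1]


/-- the words are conjugate to representatives or their inverses -/
theorem Vrep (D : LDG w R0 N G H f ef Xs L π) (n : ℕ) (a b X : G (n + 1))
    (hg : Gd (H (n + 1)) a b X) (j : Fin r) : ∃ x ∈ Xs (n + 2), ∃ (u : G (n + 2)) (k : ℤ),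
      (k = 1 ∨ k = -1) ∧ f (n + 1) (Wj w j a b X) = u * x ^ k * u⁻¹ ∧
      f (n + 2) (x ^ k) ≠ 1 := by
  obtain ⟨v1, v2, v3, v4, -⟩ := (D.sq.st (n + 1)).wr a b X hg j
  obtain ⟨x, hx, u, k, hV⟩ := (D.sq.st (n + 2)).short _ v1 v2
  -- `k` is a unit
  obtain ⟨hx1, hx2⟩ := (D.sq.st (n + 2)).prim x hx
  have hk : k = 1 ∨ k = -1 := by
    obtain ⟨t, ht⟩ := v3 (u * x * u⁻¹) (by rw [hV]; group)
    rw [hV] at ht
    have e1 : (u * x ^ k * u⁻¹) ^ t = u * x ^ (k * t) * u⁻¹ := by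
      rw [zpow_mul, conj_zpow]
    rw [e1] at ht
    have e2 : x = x ^ (k * t) := mul_left_cancel (mul_right_cancel ht)
    have e3 : x ^ (k * t - 1) = 1 := by
      rw [zpow_sub, ← e2, zpow_one, mul_inv_cancel]
    have e4 : k * t - 1 = 0 := by
      by_contra h
      exact hx1 (isOfFinOrder_iff_zpow_eq_one.2 ⟨_, h, e3⟩)
    exact Int.eq_one_or_neg_one_of_mul_eq_one (show k * t = 1 by omega)
  refine ⟨x, hx, u, k, hk, hV, ?_⟩
  intro h
  rw [(D.sq.st (n + 2)).ord x hx] at h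
  have h2 : (ef (n + 2) x : ℤ) ∣ 1 := by
    rcases hk with rfl | rfl
    · exact h
    · rwa [Int.dvd_neg] at h
  have h3 : ef (n + 2) x ∣ 1 := by exact_mod_cast h2
  have := (D.sq.exd (n + 2) x).2
  have := Nat.le_of_dvd (by norm_num) h3
  omega

/-- the order of the words in the limit -/
theorem ordV (D : LDG w R0 N G H f ef Xs L π) (n : ℕ) (a b X : G (n + 1))
    (hg : Gd (H (n + 1)) a b X) (j : Fin r) :
    orderOf (π (n + 2) (f (n + 1) (Wj w j a b X))) = ef (n + 2) (f (n + 1) (Wj w j a b X)) := by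
  obtain ⟨x, hx, u, k, hk, hV, hne⟩ := D.Vrep n a b X hg j
  have hexx : ef (n + 2) (f (n + 1) (Wj w j a b X)) = ef (n + 2) x := by
    rw [hV, D.sq.exc]
    rcases hk with rfl | rfl
    · rw [zpow_one]
    · rw [zpow_neg, zpow_one, D.sq.exi]
  have key : ∀ l : ℕ, (π (n + 2) (u * x ^ k * u⁻¹)) ^ l = 1 ↔ ef (n + 2) x ∣ l := by
    intro l
    have e1 : (u * x ^ k * u⁻¹) ^ l = u * x ^ (k * l) * u⁻¹ := by
      rw [zpow_mul, zpow_natCast, conj_pow]
    rw [← map_pow, e1, D.powX (n + 2) x hx, (D.sq.st (n + 2)).ord x hx]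
    rcases hk with rfl | rfl
    · rw [one_mul]
      exact Int.natCast_dvd_natCast
    · rw [neg_one_mul, Int.dvd_neg]
      exact Int.natCast_dvd_natCast
  rw [hexx, hV]
  apply Nat.dvd_antisymm
  · exact orderOf_dvd_of_pow_eq_one ((key _).2 dvd_rfl)
  · exact (key _).1 (pow_orderOf_eq_one _)

/-- the class of the words `vv w j A B` -/
theorem mainV (D : LDG w R0 N G H f ef Xs L π) (A B : L) (hAB : A * B ≠ B * A) :
    ∃ (n : ℕ) (h0 : L) (a b X : G (n + 1)), Gd (H (n + 1)) a b X ∧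
      π (n + 1) a = h0 * A * h0⁻¹ ∧ π (n + 1) b = h0 * B * h0⁻¹ ∧
      rk π A ≤ n + 2 ∧ rk π B ≤ n + 2 ∧
      ∀ j, h0 * vv w j A B * h0⁻¹ = π (n + 2) (f (n + 1) (Wj w j a b X)) ∧
        rk π (vv w j A B) = n + 3 ∧
        orderOf (vv w j A B) = ef (n + 2) (f (n + 1) (Wj w j a b X)) := by
  obtain ⟨n, h0, a, b, X, hg, ha, h1, h2, hb, h3⟩ := D.main A B hAB
  refine ⟨n, h0, a, b, X, hg, h1, h2, ?_, ?_, ?_⟩
  · have : rk π A ≤ n + 1 := by
      rw [← D.rk_conj h0 A, ← h1]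
      exact rk_le ha
    omega
  · rw [← D.rk_conj h0 B, ← h2, ← D.cmp]
    exact rk_le hb
  intro j
  obtain ⟨x, hx, u, k, hk, hV, hne⟩ := D.Vrep n a b X hg j
  have hvv : h0 * vv w j A B * h0⁻¹ = π (n + 2) (f (n + 1) (Wj w j a b X)) := by
    rw [D.cmp, map_Wj, h1, h2, ← h3, conj_X1, conj_Wj]
    rfl
  have hexx : ef (n + 2) (f (n + 1) (Wj w j a b X)) = ef (n + 2) x := by
    rw [hV, D.sq.exc]
    rcases hk with rfl | rfl
    · rw [zpow_one]
    · rw [zpow_neg, zpow_one, D.sq.exi]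
  have key : ∀ l : ℕ, (π (n + 2) (u * x ^ k * u⁻¹)) ^ l = 1 ↔ ef (n + 2) x ∣ l := by
    intro l
    have e1 : (u * x ^ k * u⁻¹) ^ l = u * x ^ (k * l) * u⁻¹ := by
      rw [zpow_mul, zpow_natCast, conj_pow]
    rw [← map_pow, e1, D.powX (n + 2) x hx, (D.sq.st (n + 2)).ord x hx]
    rcases hk with rfl | rfl
    · rw [one_mul]
      exact Int.natCast_dvd_natCast
    · rw [neg_one_mul, Int.dvd_neg]
      exact Int.natCast_dvd_natCast
  have hkey : ∀ l : ℕ, (vv w j A B) ^ l = 1 ↔ ef (n + 2) x ∣ l := by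
    intro l
    rw [← key, ← hV, ← hvv, conj_pow, conj_eq_one_iff]
  refine ⟨hvv, ?_, ?_⟩
  · rw [← D.rk_conj h0, hvv, hV]
    exact D.rkX (n + 2) x hx u k hne
  · rw [hexx]
    apply Nat.dvd_antisymm
    · exact orderOf_dvd_of_pow_eq_one ((hkey _).2 dvd_rfl)
    · exact (hkey _).1 (pow_orderOf_eq_one _)

/-- rigidity of the words in the limit -/
theorem rigV (D : LDG w R0 N G H f ef Xs L π) (n : ℕ) (a b X a' b' X' : G (n + 1))
    (hg : Gd (H (n + 1)) a b X) (hg' : Gd (H (n + 1)) a' b' X') (j j' : Fin r) (h : L)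
    (he : h * π (n + 2) (f (n + 1) (Wj w j a b X)) * h⁻¹ =
      π (n + 2) (f (n + 1) (Wj w j' a' b' X'))) :
    j = j' ∧ ∃ g : G (n + 1), a' = g * a * g⁻¹ ∧ b' = g * b * g⁻¹ := by
  obtain ⟨x, hx, u, k, hk, hV, hne⟩ := D.Vrep n a b X hg j
  obtain ⟨x', hx', u', k', hk', hV', hne'⟩ := D.Vrep n a' b' X' hg' j'
  obtain ⟨c, hc⟩ := D.sur (n + 2) h
  have hxx : x = x' := by
    refine D.sameX (n + 2) x x' hx hx' (c * u) u' k k' hne ?_
    have e1 : c * u * x ^ k * (c * u)⁻¹ = c * (u * x ^ k * u⁻¹) * c⁻¹ := by group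
    have e2 : π (n + 2) (c * (u * x ^ k * u⁻¹) * c⁻¹) = π (n + 2) (u' * x' ^ k' * u'⁻¹) := by
      rw [map_mul (π (n + 2)) (c * (u * x ^ k * u⁻¹)), map_mul (π (n + 2)) c, map_inv, hc, ← hV, he,
        hV']
    rw [e1, e2]
  subst hxx
  have hwr := (D.sq.st (n + 1)).wr a b X hg j
  obtain ⟨-, -, -, -, hw⟩ := hwr
  obtain ⟨w1, w2⟩ := hw a' b' X' hg' j' (u' * u⁻¹)
  have hkk : k' = k ∨ k' = -k := by omega
  rcases hkk with rfl | rfl
  · refine w1 ?_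
    rw [hV, hV']
    group
  · exfalso
    refine w2 ?_
    rw [hV, hV', zpow_neg]
    group

/-- representation of the nontrivial elements -/
theorem repr (D : LDG w R0 N G H f ef Xs L π) {a : L} (ha : a ≠ 1) :
    ∃ (n : ℕ) (x u : G n) (k : ℤ), x ∈ Xs n ∧ f n (x ^ k) ≠ 1 ∧ a = π n (u * x ^ k * u⁻¹) := by
  obtain ⟨g, hg, hga⟩ := D.rk_mem a
  have hmin : ∀ (m : ℕ) (g : G m), IsOfFinOrder g → π m g = a → rk π a ≤ m :=
    fun m g h1 h2 => h2 ▸ rk_le h1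
  generalize rk π a = m at *
  cases m with
  | zero => exact absurd (by rw [← hga, D.sq.free g hg, map_one]) ha
  | succ n =>
    rcases (D.sq.st n).tor g hg with ⟨g0, h1, h2⟩ | ⟨x, hx, u, k, h1⟩
    · have := hmin n g0 h2 (by rw [← hga, ← h1, D.cmp])
      omega
    · have h3 : f n (x ^ k) ≠ 1 := by
        intro h3
        apply ha
        rw [← hga, ← h1, (oneX n x u k).2 h3, map_one]
      exact ⟨n, x, u, k, hx, h3, by rw [← hga, ← h1, D.cmp]⟩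

/-- centralizers are cyclic -/
theorem cen (D : LDG w R0 N G H f ef Xs L π) {a : L} (ha : a ≠ 1) :
    ∃ c : L, ∀ b, b * a = a * b → ∃ s : ℤ, b = c ^ s := by
  obtain ⟨n, x, u, k, hx, h1, rfl⟩ := D.repr ha
  refine ⟨π n (u * x * u⁻¹), fun b hb => ?_⟩
  obtain ⟨s, rfl⟩ := D.centr n x hx u k h1 b hb
  refine ⟨s, ?_⟩
  rw [← map_zpow, conj_zpow]

/-- centralizers are malnormal -/
theorem mal (D : LDG w R0 N G H f ef Xs L π) {a g : L} (ha : a ≠ 1)
    (h : (g * a * g⁻¹) * a = a * (g * a * g⁻¹)) : g * a = a * g := by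
  obtain ⟨n, x, u, k, hx, h1, rfl⟩ := D.repr ha
  obtain ⟨s, hs⟩ := D.centr n x hx u k h1 _ h
  have h2 : π n (u * x ^ s * u⁻¹) ≠ 1 := by
    rw [← hs]
    intro h2
    exact ha (conj_eq_one_iff.1 h2)
  have h3 : f n (x ^ s) ≠ 1 := fun h4 => h2 ((D.powX n x hx u s).2 h4)
  obtain ⟨c, hc1, hc2⟩ := D.ctt (n + 1) (f n (u * x ^ k * u⁻¹)) (f n (u * x ^ s * u⁻¹)) g
    (D.torX n x hx u k) (D.torX n x hx u s) (fun h4 => h3 ((oneX n x u s).1 h4))
    (by rw [D.cmp, D.cmp]; exact hs)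
  obtain ⟨c0, rfl⟩ := (D.sq.st n).surj c
  obtain ⟨-, ⟨t, ht⟩, -⟩ := (D.sq.st n).cnn x hx x hx (u⁻¹ * c0 * u) s k h3
    (conj_conj n c0 u u x k _ hc2)
  have hg : g = π n (u * x ^ t * u⁻¹) := by
    rw [← hc1, ← D.cmp n (u * x ^ t * u⁻¹), map_mul (f n), map_mul (f n), ← ht, ← map_mul,
      ← map_mul]
    congr 2
    group
  rw [hg, ← map_mul, ← map_mul]
  congr 1
  have e : ∀ p q : ℤ, u * x ^ p * u⁻¹ * (u * x ^ q * u⁻¹) = u * x ^ (p + q) * u⁻¹ := by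
    intro p q
    rw [zpow_add]
    group
  rw [e, e, add_comm]

/-- the exponent -/
theorem expL (D : LDG w R0 N G H f ef Xs L π) (g : L) : g ^ N = 1 := by
  obtain ⟨n, g0, h1, rfl⟩ := D.ex g
  rw [← map_pow, D.sq.tor n g0 h1, map_one]

/-- the words do not commute with the letters -/
theorem ncV (D : LDG w R0 N G H f ef Xs L π) (j : Fin r) (A B : L) (hAB : A * B ≠ B * A) :
    (rk π A < rk π (vv w j A B) ∧ rk π B < rk π (vv w j A B)) ∧ A * vv w j A B ≠ vv w j A B * A ∧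
      B * vv w j A B ≠ vv w j A B * B := by
  obtain ⟨n, h0, a, b, X, hg, h1, h2, h3, h4, h5⟩ := D.mainV A B hAB
  obtain ⟨h6, h7, h8⟩ := h5 j
  have hA : A ≠ 1 := by rintro rfl; simp at hAB
  have hB : B ≠ 1 := by rintro rfl; simp at hAB
  have hr1 : rk π A < rk π (vv w j A B) := by omega
  have hr2 : rk π B < rk π (vv w j A B) := by omega
  refine ⟨⟨hr1, hr2⟩, ?_, ?_⟩
  · intro h
    have := D.rk_comm hA h.symm
    omega
  · intro h
    have := D.rk_comm hB h.symm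
    omega

/-- simultaneous conjugacy from conjugacy of the words -/
theorem rigL (D : LDG w R0 N G H f ef Xs L π) (j j' : Fin r) (A B A' B' h : L)
    (hAB : A * B ≠ B * A) (hAB' : A' * B' ≠ B' * A')
    (he : h * vv w j A B * h⁻¹ = vv w j' A' B') :
    j = j' ∧ ∃ g : L, A' = g * A * g⁻¹ ∧ B' = g * B * g⁻¹ := by
  obtain ⟨n, h0, a, b, X, hg, h1, h2, h3, h4, h5⟩ := D.mainV A B hAB
  obtain ⟨n', h0', a', b', X', hg', h1', h2', h3', h4', h5'⟩ := D.mainV A' B' hAB'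
  obtain ⟨h6, h7, h8⟩ := h5 j
  obtain ⟨h6', h7', h8'⟩ := h5' j'
  have hr : rk π (vv w j' A' B') = rk π (vv w j A B) := by rw [← he, D.rk_conj]
  have hn : n = n' := by omega
  subst hn
  obtain ⟨e1, g, e2, e3⟩ := D.rigV n a b X a' b' X' hg hg' j j' (h0' * h * h0⁻¹) (by
    rw [← h6, ← h6', ← he]
    group)
  refine ⟨e1, h0'⁻¹ * π (n + 1) g * h0, ?_, ?_⟩
  · have e4 := h1'
    rw [e2, map_mul, map_mul, map_inv, h1] at e4
    have e5 : A' = h0'⁻¹ * (h0' * A' * h0'⁻¹) * h0' := by group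
    rw [e5, ← e4]
    group
  · have e4 := h2'
    rw [e3, map_mul, map_mul, map_inv, h2] at e4
    have e5 : B' = h0'⁻¹ * (h0' * B' * h0'⁻¹) * h0' := by group
    rw [e5, ← e4]
    group

end LDG

end Pool.Agent.H362.SF
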