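import Pool.Agent.H362.SF.LimThm

/-!
# Proof of the limit theorem (helper362)
-/

set_option autoImplicit false

namespace Pool.Agent.H362.SF

open Pool.Agent.TH54.BU Pool.Agent.Y45.MON Pool.Agent.Y872.MON

section

variable {K B T N : ℕ} {X : Type}

/-- non commuting images -/
def NCF (s : Stg X K B T N) (g g' : FreeGroup X) : Prop := s.p g * s.p g' ≠ s.p g' * s.p g

/-- good data -/
def GdF (s : Stg X K B T N) (a b x : FreeGroup X) : Prop := Gd s.H (s.p a) (s.p b) (s.p x)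

/-- conjugate images -/
def CjF (s : Stg X K B T N) (g g' : FreeGroup X) : Prop :=
  ∃ u : FreeGroup X, s.p u * s.p g * (s.p u)⁻¹ = s.p g'

/-- the free group of rank two is not abelian -/
theorem fg_not_commute {I : Type} {i j : I} (hij : i ≠ j) :
    FreeGroup.of i * FreeGroup.of j ≠ FreeGroup.of j * FreeGroup.of i := by
  classical
  intro h
  let f : FreeGroup I →* Equiv.Perm (Fin 3) :=
    FreeGroup.lift (fun k => if k = i then Equiv.swap 0 1 else Equiv.swap 1 2)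
  have h1 := congrArg f h
  simp only [map_mul, f, FreeGroup.lift_apply_of, if_true, if_neg hij.symm] at h1
  exact absurd h1 (by decide)

end

/-- the limit theorem -/
theorem limThm : LIMStmt := by
  obtain ⟨w, R0, K, B, T, n0, hw, hR0, hK, hB, hT, hn0, hE⟩ := stepG 2 ![1, 2] (by
    intro j
    fin_cases j
    · exact Or.inl rfl
    · exact Or.inr rfl)
  have hE' : Eng w R0 K B T n0 := hE
  have hn02 : 2 ≤ n0 := by omega
  refine ⟨w, n0, by rw [hw]; rfl, by rw [hw]; rfl, hn02, ?_⟩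
  intro N hN hN0 X hX
  obtain ⟨s0, i0, f0, l0⟩ := exists_base X K B T N hB hT
  obtain ⟨fB, XB, L, iL, π, β, DB⟩ := exists_limD hE' hR0 hn02 hN s0 f0 (ruleB hN0)
  have hβ : Function.Surjective β := by
    intro y
    obtain ⟨g, rfl⟩ := DB.D.sur 0 y
    obtain ⟨g', rfl⟩ := (sqc hE' hN s0 (ruleB hN0) 0).surj g
    exact ⟨g', (DB.β 0 g').symm⟩
  have hker : ∀ g, β g = 1 ↔ g ∈ verb X N := fun g => ker_const DB i0 (fun _ _ => rfl) g
  refine ⟨L, iL, β, rk π, hβ, hker, DB.D.rg, ?_, ?_, ?_, ?_⟩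
  · obtain ⟨x, y, hxy⟩ := hX
    refine ⟨π 0 (s0.p (FreeGroup.of x)), π 0 (s0.p (FreeGroup.of y)), ?_⟩
    refine DB.D.nc_short 0 (a := s0.p (FreeGroup.of x)) (b := s0.p (FreeGroup.of y)) (l0 x).le
      (l0 y).le ?_
    intro e
    apply fg_not_commute hxy
    apply i0
    rw [map_mul, map_mul]
    exact e
  · intro j a b hab
    exact (DB.D.ncV j a b hab).1
  · intro j j' A B' A' B'' h h1 h2 h3
    exact DB.D.rigL j j' A B' A' B'' h h1 h2 h3
  intro Z hZ
  choose zt hzt using hβ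
  choose mt hmt using fun z : L => ev_sht DB (zt z)
  refine ⟨hZ.toFinset.sup mt + 3, ?_⟩
  intro A B1 hAB hrk e he he0
  obtain ⟨n, h0, a, b, x, hg, h1, h2, h3, h4, h5⟩ := DB.D.mainV A B1 hAB
  obtain ⟨h6, h7, h8⟩ := h5 0
  obtain ⟨a', ha'⟩ := (sqc hE' hN s0 (ruleB hN0) (n + 1)).surj a
  obtain ⟨b', hb'⟩ := (sqc hE' hN s0 (ruleB hN0) (n + 1)).surj b
  obtain ⟨x', hx'⟩ := (sqc hE' hN s0 (ruleB hN0) (n + 1)).surj x
  obtain ⟨v, hv⟩ : ∃ v : FreeGroup X, v = Wj w 0 a' b' x' := ⟨_, rfl⟩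
  have hZt : ∀ z ∈ Z, mt z ≤ n + 2 := by
    intro z hz
    have : mt z ≤ hZ.toFinset.sup mt := Finset.le_sup (f := mt) (hZ.mem_toFinset.2 hz)
    omega
  -- the second sequence
  obtain ⟨fS, XS, S, iS, πS, βS, DS⟩ := exists_limD hE' hR0 hn02 hN s0 f0
    (ruleS hN0 (n + 2) v e he he0)
  have hag : ∀ m ≤ n + 2, sqc hE' hN s0 (ruleS hN0 (n + 2) v e he he0) m =
      sqc hE' hN s0 (ruleB hN0) m :=
    sqc_agree hE' hN s0 _ _ (n + 2) (fun m hm => ruleS_ne hN0 (n + 2) v e he he0 m (by omega))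
  -- the map
  have hkerS : β.ker ≤ βS.ker := by
    intro g hg
    have h9 : g ∈ verb X N := (hker g).1 hg
    have h10 : verb X N ≤ βS.ker := by
      have : βS.ker.Normal := inferInstance
      rw [verb, Subgroup.normalClosure_subset_iff.symm]
      rintro _ ⟨z, rfl⟩
      show βS (z ^ N) = 1
      rw [map_pow, DS.D.expL]
    exact h10 h9
  have hβ : Function.Surjective β := fun z => ⟨zt z, hzt z⟩
  obtain ⟨q, hq⟩ : ∃ q : L →* S, ∀ g, q (β g) = βS g :=
    ⟨β.liftOfSurjective hβ ⟨βS, hkerS⟩, fun g =>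
      MonoidHom.liftOfRightInverse_comp_apply _ _ (Function.rightInverse_surjInv hβ)
        ⟨βS, hkerS⟩ g⟩
  have hqs : Function.Surjective q := by
    intro y
    obtain ⟨g, rfl⟩ := DS.D.sur 0 y
    obtain ⟨g', rfl⟩ := (sqc hE' hN s0 (ruleS hN0 (n + 2) v e he he0) 0).surj g
    exact ⟨β g', by rw [hq]; exact (DS.β 0 g').symm⟩
  -- the good data in the second sequence
  have gdS : GdF (sqc hE' hN s0 (ruleS hN0 (n + 2) v e he he0) (n + 1)) a' b' x' := by
    rw [hag (n + 1) (by omega)]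
    unfold GdF
    rw [ha', hb', hx']
    exact hg
  have hVS : fS (n + 1) (Wj w 0 ((sqc hE' hN s0 (ruleS hN0 (n + 2) v e he he0) (n + 1)).p a')
      ((sqc hE' hN s0 (ruleS hN0 (n + 2) v e he he0) (n + 1)).p b')
      ((sqc hE' hN s0 (ruleS hN0 (n + 2) v e he he0) (n + 1)).p x')) =
      (sqc hE' hN s0 (ruleS hN0 (n + 2) v e he he0) (n + 2)).p v := by
    rw [← map_Wj, DS.fp, hv]
  have hVB : π (n + 2) (fB (n + 1) (Wj w 0 a b x)) = β v := by
    rw [← ha', ← hb', ← hx', ← map_Wj, DB.fp, DB.β, hv]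
  have hqA : βS a' = q h0 * q A * (q h0)⁻¹ := by
    rw [← hq, ← DB.β (n + 1) a', ha', h1, map_mul, map_mul, map_inv]
  have hqB : βS b' = q h0 * q B1 * (q h0)⁻¹ := by
    rw [← hq, ← DB.β (n + 1) b', hb', h2, map_mul, map_mul, map_inv]
  refine ⟨S, iS, q, hqs, DS.D.rg, ?_, ?_, ?_, ?_⟩
  · -- the order of the word
    have h9 := DS.D.ordV n _ _ _ gdS 0
    rw [hVS] at h9
    have h10 : exV (sqc hE' hN s0 (ruleS hN0 (n + 2) v e he he0) (n + 2)) v e
        ((sqc hE' hN s0 (ruleS hN0 (n + 2) v e he he0) (n + 2)).p v) = e := by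
      unfold exV
      rw [if_pos ⟨1, Or.inl (by group)⟩]
    have h11 : orderOf (βS v) = e := by
      rw [← DS.β (n + 2) v, h9]
      exact (ruleS_eq hN0 (n + 2) v e he he0 _ _).trans h10
    have h12 : q h0 * q (vv w 0 A B1) * (q h0)⁻¹ = βS v := by
      rw [← hq, ← hVB, ← h6, map_mul, map_mul, map_inv]
    have h13 : (q h0 * q (vv w 0 A B1) * (q h0)⁻¹) ^ e = 1 := by
      rw [h12, ← h11, pow_orderOf_eq_one]
    rw [conj_pow, conj_eq_one_iff] at h13
    exact h13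
  · intro z hz z' hz' hzz
    have s1 : Sht (sqc hE' hN s0 (ruleS hN0 (n + 2) v e he he0) (n + 2)) (zt z) := by
      rw [hag (n + 2) le_rfl]
      exact hmt z _ (hZt z hz)
    have s2 : Sht (sqc hE' hN s0 (ruleS hN0 (n + 2) v e he he0) (n + 2)) (zt z') := by
      rw [hag (n + 2) le_rfl]
      exact hmt z' _ (hZt z' hz')
    have s3 : NCF (sqc hE' hN s0 (ruleS hN0 (n + 2) v e he he0) (n + 2)) (zt z) (zt z') := by
      rw [hag (n + 2) le_rfl]
      intro hc
      apply hzz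
      have := congrArg (π (n + 2)) hc
      rw [map_mul, map_mul, DB.β, DB.β, hzt, hzt] at this
      exact this
    have h9 := DS.D.nc_short (n + 2) s1.1 s2.1 s3
    rw [DS.β, DS.β, ← hq, ← hq, hzt, hzt] at h9
    exact h9
  · intro z hz z' hz' h hh
    have s1 : Sht (sqc hE' hN s0 (ruleS hN0 (n + 2) v e he he0) (n + 2)) (zt z) := by
      rw [hag (n + 2) le_rfl]
      exact hmt z _ (hZt z hz)
    have s2 : Sht (sqc hE' hN s0 (ruleS hN0 (n + 2) v e he he0) (n + 2)) (zt z') := by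
      rw [hag (n + 2) le_rfl]
      exact hmt z' _ (hZt z' hz')
    have h9 : h * πS (n + 2) ((sqc hE' hN s0 (ruleS hN0 (n + 2) v e he he0) (n + 2)).p (zt z)) *
        h⁻¹ = πS (n + 2) ((sqc hE' hN s0 (ruleS hN0 (n + 2) v e he he0) (n + 2)).p (zt z')) := by
      rw [DS.β, DS.β, ← hq, ← hq, hzt, hzt]
      exact hh
    have s3 : CjF (sqc hE' hN s0 (ruleS hN0 (n + 2) v e he he0) (n + 2)) (zt z) (zt z') := by
      by_cases hz1 : (sqc hE' hN s0 (ruleS hN0 (n + 2) v e he he0) (n + 2)).p (zt z') = 1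
      · rw [hz1, map_one, conj_eq_one_iff] at h9
        have h10 := DS.D.injt (n + 2) _ s1.2 h9
        refine ⟨1, ?_⟩
        rw [hz1, h10]
        simp
      · obtain ⟨u, -, hu⟩ := DS.D.ctt (n + 2) _ _ h s1.2 s2.2 hz1 h9
        obtain ⟨u', rfl⟩ := (sqc hE' hN s0 (ruleS hN0 (n + 2) v e he he0) (n + 2)).surj u
        exact ⟨u', hu⟩
    rw [hag (n + 2) le_rfl] at s3
    obtain ⟨u, hu⟩ := s3
    refine ⟨β u, ?_⟩
    have := congrArg (π (n + 2)) hu
    rw [map_mul, map_mul, map_inv, DB.β, DB.β, DB.β, hzt, hzt] at this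
    exact this
  · intro j c d hcd
    obtain ⟨m, k0, a1, b1, x1, hg1, g1, g2, -, -, g5⟩ := DS.D.mainV c d hcd
    obtain ⟨g6, g7, g8⟩ := g5 j
    by_cases hm : m = n
    · subst hm
      rw [ruleS_eq] at g8
      unfold exV at g8
      split_ifs at g8 with hc
      · right
        have hwr := (DS.D.sq.st (m + 1)).wr a1 b1 x1 hg1 j
        obtain ⟨-, -, -, -, hw⟩ := hwr
        obtain ⟨u, hu⟩ := hc
        obtain ⟨w1, w2⟩ := hw _ _ _ gdS 0 u
        rw [hVS] at w1 w2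
        rcases hu with hu | hu
        · obtain ⟨e1, g, e2, e3⟩ := w1 hu
          refine ⟨e1, ?_⟩
          refine ⟨k0⁻¹ * (πS (m + 1) g)⁻¹ * q h0, ?_, ?_⟩
          · have e4 := congrArg (πS (m + 1)) e2
            rw [DS.β, map_mul, map_mul, map_inv, g1, hqA] at e4
            have e5 : k0⁻¹ * (πS (m + 1) g)⁻¹ * q h0 * q A * (k0⁻¹ * (πS (m + 1) g)⁻¹ * q h0)⁻¹ =
                k0⁻¹ * (πS (m + 1) g)⁻¹ * (q h0 * q A * (q h0)⁻¹) * (πS (m + 1) g) * k0 := by
              group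
            rw [e5, e4]
            group
          · have e4 := congrArg (πS (m + 1)) e3
            rw [DS.β, map_mul, map_mul, map_inv, g2, hqB] at e4
            have e5 : k0⁻¹ * (πS (m + 1) g)⁻¹ * q h0 * q B1 *
                (k0⁻¹ * (πS (m + 1) g)⁻¹ * q h0)⁻¹ =
                k0⁻¹ * (πS (m + 1) g)⁻¹ * (q h0 * q B1 * (q h0)⁻¹) * (πS (m + 1) g) * k0 := by
              group
            rw [e5, e4]
            group
        · exact absurd hu w2
      · left
        exact g8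
    · left
      rw [g8]
      exact ruleS_ne' hN0 (n + 2) v e he he0 (m + 2) (by omega) _ _

end Pool.Agent.H362.SF
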