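import Pool.Agent.H362.SF.Seq

/-!
# The limit theorem for free Burnside groups of odd exponent (helper362)

`LIM`: for odd `N ≥ n0` the free Burnside group `B(X, N)` is a rigid group, and for every pair
`A, B` for which the word `vv w 0 A B` has large rank there is a rigid quotient in which exactly the
words `vv w 0` of the conjugates of `(A, B)` have the smaller order `e`.
-/

set_option autoImplicit false

namespace Pool.Agent.H362.SF

open Pool.Agent.TH54.BU Pool.Agent.Y45.MON Pool.Agent.Y872.MON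

/-- the verbal subgroup of the `N`-th powers -/
def verb (X : Type) (N : ℕ) : Subgroup (FreeGroup X) :=
  Subgroup.normalClosure (Set.range fun z : FreeGroup X => z ^ N)

/-- rigid groups -/
structure RG {r : ℕ} (w : WP r) (N : ℕ) (L : Type) [Group L] : Prop where
  exp : ∀ g : L, g ^ N = 1
  cen : ∀ a : L, a ≠ 1 → ∃ c : L, ∀ b, b * a = a * b → ∃ s : ℤ, b = c ^ s
  mal : ∀ a g : L, a ≠ 1 → (g * a * g⁻¹) * a = a * (g * a * g⁻¹) → g * a = a * g
  nc : ∀ (j : Fin r) (a b : L), a * b ≠ b * a → a * vv w j a b ≠ vv w j a b * a ∧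
    b * vv w j a b ≠ vv w j a b * b

theorem comm_ne_one {G : Type} [Group G] {a b : G} (h : a * b ≠ b * a) :
    a * b * a⁻¹ * b⁻¹ ≠ 1 := by
  intro e
  apply h
  have := mul_inv_eq_one.1 e
  rw [mul_inv_eq_iff_eq_mul] at this
  exact this

theorem comm_len {G : Type} [Group G] (H : GH G) {a b : G} (ha : H.len a ≤ 1) (hb : H.len b ≤ 1) :
    H.len (a * b * a⁻¹ * b⁻¹) ≤ 20 := by
  have g1 := H.len_mul (a * b * a⁻¹) b⁻¹
  have g2 := H.len_mul (a * b) a⁻¹
  have g3 := H.len_mul a b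
  rw [H.len_inv] at g1 g2
  omega

section

variable {r : ℕ} {w : WP r} {R0 K B T n0 N : ℕ} {X : Type}

theorem LDG.rg {G : ℕ → Type} [∀ n, Group (G n)] {H : ∀ n, GH (G n)}
    {f : ∀ n, G n →* G (n + 1)} {ef : ∀ n, G n → ℕ} {Xs : ∀ n, Set (G n)} {L : Type} [Group L]
    {π : ∀ n, G n →* L} (D : LDG w R0 N G H f ef Xs L π) : RG w N L where
  exp := D.expL
  cen := fun _ ha => D.cen ha
  mal := fun _ _ ha h => D.mal ha h
  nc := fun j a b h => (D.ncV j a b h).2

/-- short elements which do not commute -/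
theorem LDG.nc_short {G : ℕ → Type} [∀ n, Group (G n)] {H : ∀ n, GH (G n)}
    {f : ∀ n, G n →* G (n + 1)} {ef : ∀ n, G n → ℕ} {Xs : ∀ n, Set (G n)} {L : Type} [Group L]
    {π : ∀ n, G n →* L} (D : LDG w R0 N G H f ef Xs L π) (n : ℕ) {a b : G n}
    (ha : (H n).len a ≤ 1) (hb : (H n).len b ≤ 1) (hab : a * b ≠ b * a) :
    π n a * π n b ≠ π n b * π n a := by
  intro e
  apply D.short_ne n _ (comm_len (H n) ha hb) (comm_ne_one hab)
  rw [map_mul, map_mul, map_mul, map_inv, map_inv, e]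
  group

/-- a short torsion element -/
def Sht (s : Stg X K B T N) (g : FreeGroup X) : Prop :=
  s.H.len (s.p g) ≤ 1 ∧ IsOfFinOrder (s.p g)

theorem dies_ex {G : ℕ → Type} [∀ n, Group (G n)] {p : ∀ n, FreeGroup X →* G n}
    {f : ∀ n, G n →* G (n + 1)}
    (hfp : ∀ n g, f n (p n g) = p (n + 1) g) : ∀ (n : ℕ) (h : G n),
    Dies f n h → ∀ g, h = p n g → ∃ m, p m g = 1 := by
  intro n h hd
  induction hd with
  | one n => intro g hg; exact ⟨n, hg.symm⟩
  | step n h hd ih =>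
    intro g hg
    exact ih g (by rw [hg, hfp])

theorem dies_of_one {c : ℕ → Stg X K B T N} {f : ∀ n, (c n).G →* (c (n + 1)).G}
    (hfp : ∀ n g, f n ((c n).p g) = (c (n + 1)).p g) (n m : ℕ) (h : n ≤ m) (g : FreeGroup X)
    (hg : (c n).p g = 1) : (c m).p g = 1 := by
  induction m, h using Nat.le_induction with
  | base => exact hg
  | succ m hm ih => rw [← hfp, ih, map_one]

/-- the kernel of the limit with constant exponents -/
theorem ker_const {c : ℕ → Stg X K B T N} {ef : ∀ n, (c n).G → ℕ}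
    {f : ∀ n, (c n).G →* (c (n + 1)).G} {Xs : ∀ n, Set (c n).G} {L : Type} [Group L]
    {π : ∀ n, (c n).G →* L} {β : FreeGroup X →* L} (D : LimD w R0 c ef f Xs L π β)
    (h0 : Function.Injective (c 0).p) (hef : ∀ n g, ef n g = N) (g : FreeGroup X) :
    β g = 1 ↔ g ∈ verb X N := by
  constructor
  · intro hg
    have h1 : π 0 ((c 0).p g) = 1 := by rw [D.β, hg]
    obtain ⟨m, hm⟩ := dies_ex (G := fun n => (c n).G) (p := fun n => (c n).p) (f := f) D.fp 0 _
      (D.D.ker 0 _ h1) g rfl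
    clear h1 hg
    induction m generalizing g with
    | zero =>
      have : g = 1 := h0 (by rw [hm, map_one])
      rw [this]
      exact Subgroup.one_mem _
    | succ m ih =>
      have h2 := D.kr m ((c m).p g) (by rw [D.fp]; exact hm)
      have h3 : Subgroup.normalClosure {y : (c m).G | ∃ x ∈ Xs m, y = x ^ ef m x} ≤
          (verb X N).map (c m).p := by
        have : ((verb X N).map (c m).p).Normal := by
          have hv : (verb X N).Normal := Subgroup.normalClosure_normal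
          exact Subgroup.Normal.map hv _ (c m).surj
        rw [Subgroup.normalClosure_subset_iff.symm]
        rintro _ ⟨x, -, rfl⟩
        obtain ⟨z, rfl⟩ := (c m).surj x
        rw [hef, ← map_pow]
        exact ⟨z ^ N, Subgroup.subset_normalClosure ⟨z, rfl⟩, rfl⟩
      obtain ⟨g', hg', he⟩ := h3 h2
      have h4 := ih (g'⁻¹ * g) (by rw [map_mul, map_inv, he, inv_mul_cancel])
      have h5 := (verb X N).mul_mem hg' h4
      rwa [mul_inv_cancel_left] at h5
  · intro hg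
    have h1 : verb X N ≤ β.ker := by
      have : β.ker.Normal := inferInstance
      rw [verb, Subgroup.normalClosure_subset_iff.symm]
      rintro _ ⟨z, rfl⟩
      show β (z ^ N) = 1
      rw [map_pow, D.D.expL]
    exact h1 hg

/-- elements become short torsion elements -/
theorem ev_sht {c : ℕ → Stg X K B T N} {ef : ∀ n, (c n).G → ℕ}
    {f : ∀ n, (c n).G →* (c (n + 1)).G} {Xs : ∀ n, Set (c n).G} {L : Type} [Group L]
    {π : ∀ n, (c n).G →* L} {β : FreeGroup X →* L} (D : LimD w R0 c ef f Xs L π β)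
    (g : FreeGroup X) : ∃ m0, ∀ m, m0 ≤ m → Sht (c m) g := by
  have h1 : ∀ k n, (c n).H.len ((c n).p g) ≤ k → ∃ m, (c m).H.len ((c m).p g) ≤ 1 := by
    intro k
    induction k using Nat.strong_induction_on with
    | _ k ih =>
      intro n hn
      by_cases hk : k ≤ 1
      · exact ⟨n, hn.trans hk⟩
      · have h2 := (D.D.sq.st n).len ((c n).p g)
        rw [D.fp] at h2
        exact ih ((k + 1) / 2) (by omega) (n + 1) (by omega)
  obtain ⟨m1, hm1⟩ := h1 _ 0 le_rfl
  have h2 : ∀ m, m1 ≤ m → (c m).H.len ((c m).p g) ≤ 1 := by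
    intro m hm
    induction m, hm using Nat.le_induction with
    | base => exact hm1
    | succ m hm ih =>
      have h3 := (D.D.sq.st m).len ((c m).p g)
      rw [D.fp] at h3
      omega
  refine ⟨m1 + 1, fun m hm => ⟨h2 m (by omega), ?_⟩⟩
  obtain ⟨m', rfl⟩ : ∃ m', m = m' + 1 := ⟨m - 1, by omega⟩
  have h3 := (D.D.sq.st m').kill ((c m').p g) (h2 m' (by omega))
  rwa [D.fp] at h3

open Classical in
/-- the modified exponent function -/
noncomputable def exV (s : Stg X K B T N) (v : FreeGroup X) (e : ℕ) (g : s.G) : ℕ :=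
  if ∃ u : s.G, u * g * u⁻¹ = s.p v ∨ u * g * u⁻¹ = (s.p v)⁻¹ then e else N

theorem exV_EV (s : Stg X K B T N) (v : FreeGroup X) (e : ℕ) (he : e ∣ N) (he0 : n0 ≤ e)
    (hN : n0 ≤ N) : EV N n0 (exV s v e) where
  dv := by
    intro g
    unfold exV
    split_ifs
    · exact he
    · exact dvd_rfl
  ge := by
    intro g
    unfold exV
    split_ifs
    · exact he0
    · exact hN
  cj := by
    intro g u
    unfold exV
    congr 1
    apply propext
    constructor
    · rintro ⟨v', h⟩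
      refine ⟨v' * u, ?_⟩
      rw [show v' * u * g * (v' * u)⁻¹ = v' * (u * g * u⁻¹) * v'⁻¹ by group]
      exact h
    · rintro ⟨v', h⟩
      refine ⟨v' * u⁻¹, ?_⟩
      rw [show v' * u⁻¹ * (u * g * u⁻¹) * (v' * u⁻¹)⁻¹ = v' * g * v'⁻¹ by group]
      exact h
  iv := by
    intro g
    unfold exV
    congr 1
    apply propext
    constructor
    · rintro ⟨u, h | h⟩
      · refine ⟨u, Or.inr ?_⟩
        rw [← h]
        group
      · refine ⟨u, Or.inl ?_⟩
        have : u * g * u⁻¹ = (u * g⁻¹ * u⁻¹)⁻¹ := by group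
        rw [this, h, inv_inv]
    · rintro ⟨u, h | h⟩
      · refine ⟨u, Or.inr ?_⟩
        rw [← h]
        group
      · refine ⟨u, Or.inl ?_⟩
        have : u * g⁻¹ * u⁻¹ = (u * g * u⁻¹)⁻¹ := by group
        rw [this, h, inv_inv]

theorem const_EV (s : Stg X K B T N) (hN : n0 ≤ N) : EV N n0 (fun _ : s.G => N) :=
  ⟨fun _ => dvd_rfl, fun _ => hN, fun _ _ => rfl, fun _ => rfl⟩

/-- the constant rule -/
def ruleB (hN : n0 ≤ N) : Rule X K B T N n0 := fun _ s => ⟨fun _ => N, const_EV s hN⟩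

/-- the rule with one modified step -/
noncomputable def ruleS (hN : n0 ≤ N) (t : ℕ) (v : FreeGroup X) (e : ℕ) (he : e ∣ N)
    (he0 : n0 ≤ e) : Rule X K B T N n0 := fun n s =>
  if n = t then ⟨exV s v e, exV_EV s v e he he0 hN⟩ else ⟨fun _ => N, const_EV s hN⟩

theorem ruleS_ne (hN : n0 ≤ N) (t : ℕ) (v : FreeGroup X) (e : ℕ) (he : e ∣ N)
    (he0 : n0 ≤ e) (n : ℕ) (hn : n ≠ t) :
    (ruleS hN t v e he he0 : Rule X K B T N n0) n = ruleB hN n := by
  funext s
  unfold ruleS ruleB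
  rw [if_neg hn]

theorem ruleS_ne' (hN : n0 ≤ N) (t : ℕ) (v : FreeGroup X) (e : ℕ) (he : e ∣ N)
    (he0 : n0 ≤ e) (n : ℕ) (hn : n ≠ t) (s : Stg X K B T N) (g : s.G) :
    ((ruleS hN t v e he he0 : Rule X K B T N n0) n s).1 g = N := by
  rw [ruleS_ne hN t v e he he0 n hn]
  rfl

theorem ruleS_eq (hN : n0 ≤ N) (t : ℕ) (v : FreeGroup X) (e : ℕ) (he : e ∣ N)
    (he0 : n0 ≤ e) (s : Stg X K B T N) (g : s.G) :
    ((ruleS hN t v e he he0 : Rule X K B T N n0) t s).1 g = exV s v e g := by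
  unfold ruleS
  rw [if_pos rfl]

end

/-- the limit theorem -/
def LIMStmt : Prop := ∃ (w : WP 2) (n0 : ℕ), w.δ 0 = 1 ∧ w.δ 1 = 2 ∧ 2 ≤ n0 ∧
  ∀ N : ℕ, Odd N → n0 ≤ N → ∀ X : Type, (∃ x y : X, x ≠ y) →
  ∃ (L : Type) (_ : Group L) (β : FreeGroup X →* L) (rk : L → ℕ), Function.Surjective β ∧
    (∀ g, β g = 1 ↔ g ∈ verb X N) ∧ RG w N L ∧ (∃ a b : L, a * b ≠ b * a) ∧
    (∀ (j : Fin 2) (a b : L), a * b ≠ b * a → rk a < rk (vv w j a b) ∧ rk b < rk (vv w j a b)) ∧
    (∀ (j j' : Fin 2) (A B A' B' h : L), A * B ≠ B * A → A' * B' ≠ B' * A' →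
      h * vv w j A B * h⁻¹ = vv w j' A' B' →
      j = j' ∧ ∃ g : L, A' = g * A * g⁻¹ ∧ B' = g * B * g⁻¹) ∧
    ∀ Z : Set L, Z.Finite → ∃ R : ℕ, ∀ A B : L, A * B ≠ B * A → R < rk (vv w 0 A B) →
      ∀ e : ℕ, e ∣ N → n0 ≤ e → ∃ (S : Type) (_ : Group S) (q : L →* S),
        Function.Surjective q ∧ RG w N S ∧ q (vv w 0 A B) ^ e = 1 ∧
        (∀ z ∈ Z, ∀ z' ∈ Z, z * z' ≠ z' * z → q z * q z' ≠ q z' * q z) ∧
        (∀ z ∈ Z, ∀ z' ∈ Z, ∀ h : S, h * q z * h⁻¹ = q z' → ∃ g : L, g * z * g⁻¹ = z') ∧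
        ∀ (j : Fin 2) (a b : S), a * b ≠ b * a → orderOf (vv w j a b) = N ∨
          (j = 0 ∧ ∃ g : S, a = g * q A * g⁻¹ ∧ b = g * q B * g⁻¹)

end Pool.Agent.H362.SF
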