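import Pool.Agent.H362.SF.Tor
import Pool.Graph.R_seed8.Y270.MON.V8

/-!
# The mixed property of the quotient without primality assumptions (helper362)
-/

set_option autoImplicit false

namespace Pool.Agent.H362.SF

open Pool.Agent.TH54.BU Pool.Agent.Y45.MON Pool.Agent.TH54.BU.LS

/-- big edges lie on lines -/
theorem GD.line {G : Type} [Group G] {H : GH G} {c θ T : ℕ} {L : LS H c θ T} {n : L.ι → ℕ}
    {M : Subgroup G} [M.Normal] {E : GH G} {Θ : ℕ} {Q : GH (G ⧸ M)} {γ : ℕ → G} {l : ℕ}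
    (D : GD (L := L) (n := n) (M := M) (E := E) (Θ := Θ) (Q := Q) γ l) {k : ℕ} (hk : k < l)
    (hb : 2 * c + θ + 10 * Θ + 10 ≤ H.d (γ k) (γ (k + 1))) :
    ∃ i : L.ι, (γ k)⁻¹ * γ (k + 1) ∈ Subgroup.zpowers (L.x i) := by
  rcases (D.C.le_one ((γ k)⁻¹ * γ (k + 1))).1 (D.hγ.1 k hk) with h | ⟨i, t, ht⟩
  · exfalso
    unfold GH.d at hb
    omega
  · exact ⟨i, t, ht.symm⟩

theorem mq_mainG {G : Type} [Group G] {H : GH G} {c θ T : ℕ} {L : LS H c θ T}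
    {K B p L1 Θ : ℕ} {n : L.ι → ℕ} {E : GH G} {M : Subgroup G} [M.Normal] {Q : GH (G ⧸ M)}
    (S : Sv L K B p L1 Θ n E M Q)
    {Kb K' N A R W m0 K2 : ℕ} (hK' : K' = Kb + Q.D) (h10 : 10 * Q.D ≤ K')
    (hN : N = (2 * K' + 3) ^ 2) (hA : A = 2 * c + θ + 12 * Θ + 10)
    (hR : R = (2 * A + 3 * Θ + 1) * K')
    (hW : W = 2 * K' + 2 + B + 24 * R + 100 * H.D + 100 + 2 * R +
      20 * (H.D + c + 1) * (Nat.clog 2 T + 10 * (H.D + c + 1)))
    (hK2 : K2 = 1 + (N + 1) * K')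
    (hm0 : m0 = 2 * (N * Kb) + 14 * Q.D + 20 + K' + K2)
    (n2 : ∀ i, T * (2 * c + 1) + 2 * T * Θ ≤ n i)
    (n3 : ∀ i, (12 * K' + 20) * (T * (2 * c + 2 * θ + 20 * Θ + 20) + 1) + 24 * L.thr ≤ n i)
    (n4 : ∀ i, 4 * (T * (A + Θ + 1) + 1) + 24 * L.thr + T * (2 * c + 1) +
      4 * T * (R + θ + Θ + 1000 * (H.D + c + θ + 1)) + 48 * L.thr + 4 ≤ n i)
    (q : G ⧸ M) (hq : 3 * m0 + 4 * W + 10 ≤ Q.len q) :
    (∀ g ∈ Q.SD Kb q, IsOfFinOrder g → g = 1) ∧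
    ((∀ g ∈ Q.SD Kb q, ∀ h ∈ Q.SD Kb q, g * h = h * g) ∨
      ((Q.SD Kb q).Finite ∧ (Q.SD Kb q).ncard ≤ N)) := by
  have n3' : ∀ i, (4 * K' + 20) * (T * (2 * c + 2 * θ + 20 * Θ + 20) + 1) + 24 * L.thr ≤ n i := by
    intro i
    have h1 := n3 i
    have h2 : (4 * K' + 20) * (T * (2 * c + 2 * θ + 20 * Θ + 20) + 1) ≤
        (12 * K' + 20) * (T * (2 * c + 2 * θ + 20 * Θ + 20) + 1) :=
      Nat.mul_le_mul_right _ (by omega)
    omega
  have n5 : ∀ i, (12 * Q.D + 20) * (T * (2 * c + θ + 10 * Θ + 10) + 1) + 24 * L.thr ≤ n i := by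
    intro i
    have h1 := n3 i
    have h2 : (12 * Q.D + 20) * (T * (2 * c + θ + 10 * Θ + 10) + 1) ≤
        (12 * K' + 20) * (T * (2 * c + 2 * θ + 20 * Θ + 20) + 1) := by
      gcongr <;> omega
    omega
  have n6 : ∀ i, (4 * K' + 20) * (T * (2 * c + θ + 10 * Θ + 10) + 1) + 24 * L.thr ≤ n i := by
    intro i
    have h1 := n3' i
    have h2 : (4 * K' + 20) * (T * (2 * c + θ + 10 * Θ + 10) + 1) ≤
        (4 * K' + 20) * (T * (2 * c + 2 * θ + 20 * Θ + 20) + 1) := by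
      gcongr <;> omega
    omega
  obtain ⟨g0, hg0, hl0⟩ := S.lift q
  obtain ⟨m, hm, hmin, hang⟩ := aReduced G H c θ T L n M S.fil E Θ S.cone n2 g0
  obtain ⟨q', hq'def⟩ : ∃ q' : G, q' = m * g0 := ⟨_, rfl⟩
  rw [← hq'def] at hmin hang
  have hq' : (q' : G ⧸ M) = q := by
    rw [hq'def, QuotientGroup.mk_mul, hg0, (QuotientGroup.eq_one_iff m).2 hm, one_mul]
  have hlen : E.len q' = Q.len q := by
    apply le_antisymm
    · have := hmin 1 M.one_mem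
      rwa [one_mul, hl0] at this
    · rw [← hq']; exact S.le q'
  obtain ⟨l, hl⟩ : ∃ l, l = Q.len q := ⟨_, rfl⟩
  rw [← hl] at hlen hq
  obtain ⟨γ, hγ, γ0, γl⟩ := mq_exists_geod E 1 q'
  rw [E.d_one, hlen] at hγ γl
  have Qle : ∀ x y : G, Q.d (x : G ⧸ M) y ≤ E.d x y := fun x y => S.le (x⁻¹ * y)
  have hQ0 : Q.d (γ 0 : G ⧸ M) (γ l) = l := by
    rw [γ0, γl, hq', hl]
    exact Q.d_one q
  have hang' : ∀ (i : L.ι) (u : G), 2 * |L.s i u (γ 0) (γ l)| < n i + T * (2 * c + 1) := by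
    intro i u
    rw [γ0, γl]
    exact hang i u
  have D : GD (L := L) (n := n) (M := M) (E := E) (Θ := Θ) (Q := Q) γ l :=
    ⟨S.fil, S.cone, S.le, S.lift, hγ, hQ0, hang'⟩
  have Qa : ∀ j ≤ l, Q.d (γ 0 : G ⧸ M) (γ j) = j ∧ Q.d (γ j : G ⧸ M) (γ l) = l - j := by
    intro j hj
    have h1 := D.Qd (Nat.zero_le j) hj
    have h2 := D.Qd hj le_rfl
    omega
  have hSD1 : ∀ g ∈ Q.SD Kb q, Q.d (γ 0 : G ⧸ M) (g * γ 0) ≤ Kb := by
    rintro g ⟨hg, -⟩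
    have e : Q.d (γ 0 : G ⧸ M) (g * γ 0) = Q.len g := by
      rw [γ0]
      unfold GH.d
      congr 1
      simp
    rw [e]; exact hg
  have hSD2 : ∀ g ∈ Q.SD Kb q, Q.d (γ l : G ⧸ M) (g * γ l) ≤ Kb := by
    rintro g ⟨-, hg⟩
    rw [γl, hq']
    unfold GH.d
    rwa [← mul_assoc]
  have hdisp : ∀ g ∈ Q.SD Kb q, ∀ j ≤ l, Q.d (γ j : G ⧸ M) (g * γ j) ≤ K' := by
    intro g hg j hj
    have h1 := Qa j hj
    rw [hK']
    exact mq_disp Q (hSD1 g hg) (hSD2 g hg) (l := l) (by omega) hQ0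
  by_cases hB : ∃ a, m0 ≤ a ∧ a + W + m0 ≤ l ∧ ∀ k, a ≤ k → k < a + W →
      H.d (γ k) (γ (k + 1)) ≤ 2 * c + θ + 10 * Θ + 10
  · -- a window without big edges
    obtain ⟨a, ha1, ha2, ha3⟩ := hB
    have hD : ∀ (i : L.ι) (u : G), L.D i u (γ a) (γ (a + W)) ≤ A := by
      intro i u
      have := mq_nobig L S.cone hγ (by omega) ha3 i u
      omega
    have hE : E.d (γ a) (γ (a + W)) = W := by
      rw [mq_geod_eq hγ (by omega) (by omega)]
      omega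
    obtain ⟨c1, c2⟩ := aCase2 G H c θ T L K B p L1 Θ n E M Q S A K' R hR _ _ hD (by rw [hE, hW]) n4
    refine ⟨?_, Or.inl ?_⟩
    · intro g hg hf
      exact c1 g (hdisp g hg _ (by omega)) (hdisp g hg _ (by omega)) hf
    · intro g hg h hh
      exact c2 g h (hdisp g hg _ (by omega)) (hdisp g hg _ (by omega))
        (hdisp h hh _ (by omega)) (hdisp h hh _ (by omega))
  · -- two big edges
    have hbig : ∀ a, m0 ≤ a → a + W + m0 ≤ l → ∃ k, a ≤ k ∧ k < a + W ∧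
        2 * c + θ + 10 * Θ + 10 < H.d (γ k) (γ (k + 1)) := by
      intro a h1 h2
      by_contra hcon
      apply hB
      refine ⟨a, h1, h2, ?_⟩
      intro k hk1 hk2
      by_contra hk3
      exact hcon ⟨k, hk1, hk2, by omega⟩
    obtain ⟨k0, z1, z2, z3⟩ := hbig m0 le_rfl (by omega)
    obtain ⟨k1, a1, a2, a3⟩ := hbig (m0 + W + (K2 + 4 * Q.D + 4)) (by omega) (by omega)
    obtain ⟨k3, b1, b2, b3⟩ := hbig (m0 + W + (K2 + 4 * Q.D + 4) + W) (by omega) (by omega)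
    have hex : ∃ k, k1 < k ∧ 2 * c + θ + 10 * Θ + 10 < H.d (γ k) (γ (k + 1)) :=
      ⟨k3, by omega, b3⟩
    classical
    obtain ⟨k2, hk2, hmin2⟩ : ∃ k2, (k1 < k2 ∧ 2 * c + θ + 10 * Θ + 10 < H.d (γ k2) (γ (k2 + 1))) ∧
        ∀ k < k2, ¬ (k1 < k ∧ 2 * c + θ + 10 * Θ + 10 < H.d (γ k) (γ (k + 1))) :=
      ⟨Nat.find hex, Nat.find_spec hex, fun k hk => Nat.find_min hex hk⟩
    have hk23 : k2 ≤ k3 := by
      by_contra hlt
      exact hmin2 k3 (by omega) ⟨by omega, b3⟩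
    have hsmall : ∀ k, k1 < k → k < k2 → H.d (γ k) (γ (k + 1)) ≤ 2 * c + θ + 10 * Θ + 10 := by
      intro k h1 h2
      by_contra h3
      exact hmin2 k h2 ⟨h1, by omega⟩
    obtain ⟨f1, f2⟩ := aCase1 G H c θ T L K B p L1 Θ n E M Q S γ l hγ hQ0 hang' K' k1 k2 (by omega)
      hk2.1 (by omega) a3.le hk2.2.le hsmall n3'
    have hsub : Q.SD Kb q ⊆ {g : G ⧸ M | ∀ j, k1 - (K' + 2) ≤ j → j ≤ k2 + 1 + (K' + 2) →
        Q.d (γ j : G ⧸ M) (g * γ j) ≤ K'} := by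
      intro g hg j _ hj
      exact hdisp g hg j (by omega)
    refine ⟨?_, Or.inr ⟨f1.subset hsub, ?_⟩⟩
    · intro g hg hf
      by_cases hord : N < orderOf g
      · exfalso
        have himg : (fun e : ℕ => g ^ e) '' (Set.Iio (N + 1)) ⊆
            {g : G ⧸ M | ∀ j, k1 - (K' + 2) ≤ j → j ≤ k2 + 1 + (K' + 2) →
              Q.d (γ j : G ⧸ M) (g * γ j) ≤ K'} := by
          rintro _ ⟨e, he, rfl⟩ j hj1 hj2
          have he' : e < N + 1 := he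
          have h1 := Qa j (by omega)
          exact (mq_fin_pow Q (N := N) (by omega) hf (hSD1 g hg) (hSD2 g hg) (by omega) (by omega)
            (by omega)).trans h10
        have hinj : Set.InjOn (fun e : ℕ => g ^ e) (Set.Iio (N + 1)) := by
          apply (pow_injOn_Iio_orderOf (x := g)).mono
          intro e he
          have he' : e < N + 1 := he
          rw [Set.mem_Iio]
          omega
        have c1 := Set.ncard_le_ncard himg f1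
        rw [hinj.ncard_image, Set.ncard_eq_toFinset_card', Set.toFinset_Iio,
          Nat.card_Iio, ← hN] at *
        omega
      · -- small order
        push Not at hord
        have ho1 : 1 ≤ orderOf g := orderOf_pos_iff.2 hf
        obtain ⟨i0, hi0⟩ := D.line (k := k0) (by omega) z3.le
        obtain ⟨i1, hi1⟩ := D.line (k := k1) (by omega) a3.le
        obtain ⟨i2, hi2⟩ := D.line (k := k2) (by omega) hk2.2.le
        obtain ⟨t1, e1⟩ := D.tor (k1 := k0) (k := k1) (K' := K') (K2 := K2) (Nb := N)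
          (by omega) (by omega) (by omega) (by omega) z3.le a3.le hi0 hi1 n5 n6
          (hdisp g hg) ho1 hord (pow_orderOf_eq_one g)
        obtain ⟨t2, e2⟩ := D.tor (k1 := k0) (k := k2) (K' := K') (K2 := K2) (Nb := N)
          (by omega) (by omega) (by omega) (by omega) z3.le hk2.2.le hi0 hi2 n5 n6
          (hdisp g hg) ho1 hord (pow_orderOf_eq_one g)
        have hD : ∀ (i : L.ι) (u : G), L.D i u (γ (k1 + 1)) (γ k2) ≤
            2 * c + θ + 10 * Θ + 10 + 2 * Θ := by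
          intro i u
          exact L.cs1_proj S.cone hγ (show k1 + 1 ≤ k2 by omega) (by omega)
            (fun k h1 h2 => hsmall k (by omega) h2) i u
        have hne : i1 = i2 → (γ (k1 + 1))⁻¹ * γ k2 ∉ Subgroup.zpowers (L.x i1) := by
          intro h12 hmem
          subst h12
          have h3 := (Subgroup.zpowers (L.x i1)).mul_mem
            ((Subgroup.zpowers (L.x i1)).mul_mem hi1 hmem) hi2
          rw [show (γ k1)⁻¹ * γ (k1 + 1) * ((γ (k1 + 1))⁻¹ * γ k2) * ((γ k2)⁻¹ * γ (k2 + 1)) =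
            (γ k1)⁻¹ * γ (k2 + 1) by group] at h3
          have h4 := L.cs1_on_E S.cone h3
          have h5 := cs1_geod hγ (show k1 ≤ k2 + 1 by omega) (by omega)
          omega
        obtain ⟨t0, ht0⟩ := hi1
        have ht0' : γ (k1 + 1) = γ k1 * L.x i1 ^ t0 := by
          rw [show L.x i1 ^ t0 = (γ k1)⁻¹ * γ (k1 + 1) from ht0]
          group
        have q1 : L.rt i1 (γ (k1 + 1)) t1 = γ k1 * L.x i1 ^ t1 * (γ k1)⁻¹ := by
          unfold LS.rt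
          rw [ht0']
          rw [show γ k1 * L.x i1 ^ t0 * L.x i1 ^ t1 * (γ k1 * L.x i1 ^ t0)⁻¹ =
            γ k1 * (L.x i1 ^ t0 * L.x i1 ^ t1 * (L.x i1 ^ t0)⁻¹) * (γ k1)⁻¹ by group]
          congr 2
          rw [← zpow_neg, ← zpow_add, ← zpow_add]
          congr 1
          ring
        have hone := aRigid G H c θ T L n M S.fil i1 i2 (γ (k1 + 1)) (γ k2) hne
          (2 * c + θ + 10 * Θ + 10 + 2 * Θ) hD (fun i => by
            have g1 := n3 i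
            have h1 : T * (2 * c + θ + 10 * Θ + 10 + 2 * Θ + θ + 1) ≤
                T * (2 * c + 2 * θ + 20 * Θ + 20) := Nat.mul_le_mul_left _ (by omega)
            have h2 : T * (2 * c + 1) ≤ T * (2 * c + 2 * θ + 20 * Θ + 20) :=
              Nat.mul_le_mul_left _ (by omega)
            have h3 : 20 * (T * (2 * c + 2 * θ + 20 * Θ + 20) + 1) ≤
                (12 * K' + 20) * (T * (2 * c + 2 * θ + 20 * Θ + 20) + 1) :=
              Nat.mul_le_mul_right _ (by omega)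
            omega) t1 t2 (by
            rw [q1, ← e1]
            exact e2)
        rw [q1, ← e1] at hone
        exact hone
    · rw [hN]
      exact (Set.ncard_le_ncard hsub f1).trans f2

/-- the statement of the mixed property without primality assumptions -/
def MixGStmt : Prop := ∀ (D c θ Θ De B : ℕ), ∃ C : ℕ, ∀ T : ℕ, ∃ n0 : ℕ, ∀ (G : Type) [Group G]
  (H : GH G) (L : LS H c θ T) (K p L1 : ℕ) (n : L.ι → ℕ) (E : GH G) (M : Subgroup G) [M.Normal]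
  (Q : GH (G ⧸ M)),
  H.D ≤ D → E.D ≤ De → (∀ i, n0 ≤ n i) → Sv L K B p L1 Θ n E M Q →
  Q.Mix (100 * Q.D + 100) (C * (Nat.clog 2 T + 1)) ((2 * (101 * Q.D + 100) + 3) ^ 2)

/-- the mixed property of the quotient: `C` does not depend on `T` -/
theorem mixG : MixGStmt := by
  intro D c θ Θ De B
  obtain ⟨b0, hb0⟩ : ∃ b0, b0 = 2 * De + 2 := ⟨_, rfl⟩
  obtain ⟨k0, hk0⟩ : ∃ k0, k0 = 101 * b0 + 100 := ⟨_, rfl⟩
  obtain ⟨A, hA⟩ : ∃ A, A = 2 * c + θ + 12 * Θ + 10 := ⟨_, rfl⟩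
  obtain ⟨r0, hr0⟩ : ∃ r0, r0 = (2 * A + 3 * Θ + 1) * k0 := ⟨_, rfl⟩
  obtain ⟨N0, hN0⟩ : ∃ N0, N0 = (2 * k0 + 3) ^ 2 := ⟨_, rfl⟩
  obtain ⟨K2, hK2⟩ : ∃ K2, K2 = 1 + (N0 + 1) * k0 := ⟨_, rfl⟩
  obtain ⟨m0, hm0⟩ : ∃ m0, m0 = 2 * (N0 * (100 * b0 + 100)) + 14 * b0 + 20 + k0 + K2 := ⟨_, rfl⟩
  obtain ⟨Y, hY⟩ : ∃ Y, Y = 20 * (D + c + 1) := ⟨_, rfl⟩
  obtain ⟨X, hX⟩ : ∃ X, X = 2 * k0 + 2 + B + 24 * r0 + 100 * D + 100 + 2 * r0 +
    Y * (10 * (D + c + 1)) := ⟨_, rfl⟩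
  refine ⟨3 * m0 + 4 * X + 10 + 4 * Y, fun T => ?_⟩
  refine ⟨(T * (2 * c + 1) + 2 * T * Θ) +
    ((12 * k0 + 20) * (T * (2 * c + 2 * θ + 20 * Θ + 20) + 1) + 24 * (T * (2 * c + θ + 1))) +
    (4 * (T * (A + Θ + 1) + 1) + 24 * (T * (2 * c + θ + 1)) + T * (2 * c + 1) +
      4 * T * (r0 + θ + Θ + 1000 * (D + c + θ + 1)) + 48 * (T * (2 * c + θ + 1)) + 4), ?_⟩
  intro G _ H L K p L1 n E M _ Q hHD hED hn0 S
  have hb : Q.D ≤ b0 := by
    rw [S.hQD, hb0]; omega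
  obtain ⟨K', hK'⟩ : ∃ K', K' = 101 * Q.D + 100 := ⟨_, rfl⟩
  have hkk : K' ≤ k0 := by omega
  obtain ⟨R, hR⟩ : ∃ R, R = (2 * A + 3 * Θ + 1) * K' := ⟨_, rfl⟩
  have hRr : R ≤ r0 := by
    rw [hR, hr0]
    exact Nat.mul_le_mul_left _ hkk
  obtain ⟨N, hN⟩ : ∃ N, N = (2 * K' + 3) ^ 2 := ⟨_, rfl⟩
  have hNN : N ≤ N0 := by
    rw [hN, hN0]
    exact Nat.pow_le_pow_left (by omega) 2
  have hthr : L.thr = T * (2 * c + θ + 1) := rfl
  obtain ⟨K2', hK2'⟩ : ∃ K2', K2' = 1 + (N + 1) * K' := ⟨_, rfl⟩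
  have hK22 : K2' ≤ K2 := by
    rw [hK2', hK2]
    exact Nat.add_le_add_left (Nat.mul_le_mul (by omega) hkk) _
  obtain ⟨m1, hm1⟩ : ∃ m1, m1 = 2 * (N * (100 * Q.D + 100)) + 14 * Q.D + 20 + K' + K2' := ⟨_, rfl⟩
  have hmm : m1 ≤ m0 := by
    have : N * (100 * Q.D + 100) ≤ N0 * (100 * b0 + 100) := Nat.mul_le_mul hNN (by omega)
    omega
  obtain ⟨W, hW⟩ : ∃ W, W = 2 * K' + 2 + B + 24 * R + 100 * H.D + 100 + 2 * R +
      20 * (H.D + c + 1) * (Nat.clog 2 T + 10 * (H.D + c + 1)) := ⟨_, rfl⟩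
  have hWX : W ≤ X + Y * Nat.clog 2 T := by
    have h1 : 20 * (H.D + c + 1) * (Nat.clog 2 T + 10 * (H.D + c + 1)) ≤
        Y * (Nat.clog 2 T + 10 * (D + c + 1)) := by
      rw [hY]
      exact Nat.mul_le_mul (by omega) (by omega)
    rw [Nat.mul_add Y] at h1
    omega
  have hn3 : (12 * K' + 20) * (T * (2 * c + 2 * θ + 20 * Θ + 20) + 1) ≤
      (12 * k0 + 20) * (T * (2 * c + 2 * θ + 20 * Θ + 20) + 1) :=
    Nat.mul_le_mul_right _ (by omega)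
  have hn4 : 4 * T * (R + θ + Θ + 1000 * (H.D + c + θ + 1)) ≤
      4 * T * (r0 + θ + Θ + 1000 * (D + c + θ + 1)) :=
    Nat.mul_le_mul_left _ (by omega)
  intro q hq
  have hlen : 3 * m1 + 4 * W + 10 ≤ Q.len q := by
    refine le_trans ?_ hq
    have h1 : (3 * m0 + 4 * X + 10 + 4 * Y) * (Nat.clog 2 T + 1) =
      (3 * m0 + 4 * X + 10) * Nat.clog 2 T + 4 * (Y * Nat.clog 2 T) +
        (3 * m0 + 4 * X + 10 + 4 * Y) := by ring
    rw [h1]
    have h2 := Nat.zero_le ((3 * m0 + 4 * X + 10) * Nat.clog 2 T)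
    omega
  have key := mq_mainG S (Kb := 100 * Q.D + 100) (K' := K') (K2 := K2') (by omega) (by omega) hN
    hA hR hW hK2' hm1
    (fun i => by have := hn0 i; omega) (fun i => by have := hn0 i; omega)
    (fun i => by have := hn0 i; omega) q hlen
  rw [← hK', ← hN]
  exact key

end Pool.Agent.H362.SF
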