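import Pool.Graph.R_seed8.Y45.MON.Geo

/-!
# Big edges of quotient geodesics separate (helper362)

Variable exponent Burnside theory (`Pool.Agent.Y45.MON`): a geodesic of the quotient whose ends are
near to points of a lifted geodesic on both sides of a big edge has an edge on the same line.
-/

set_option autoImplicit false

namespace Pool.Agent.H362.SF

open Pool.Agent.TH54.BU Pool.Agent.Y45.MON Pool.Agent.TH54.BU.LS Pool.Agent.Y288.MON

variable {G : Type} [Group G]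

/-- a lift of a path of the quotient -/
theorem exists_lift_path {M : Subgroup G} [M.Normal] {E : GH G} {Q : GH (G ⧸ M)}
    (hQ2 : ∀ q : G ⧸ M, ∃ g : G, (g : G ⧸ M) = q ∧ E.len g = Q.len q)
    (τ : ℕ → G ⧸ M) (g0 : G) (h0 : (g0 : G ⧸ M) = τ 0) :
    ∃ s : ℕ → G, s 0 = g0 ∧ (∀ j, ((s j : G) : G ⧸ M) = τ j) ∧
      ∀ j, E.d (s j) (s (j + 1)) = Q.d (τ j) (τ (j + 1)) := by
  choose v hv1 hv2 using hQ2
  obtain ⟨s, hs0, hs⟩ : ∃ s : ℕ → G, s 0 = g0 ∧
      ∀ j, s (j + 1) = s j * v ((τ j)⁻¹ * τ (j + 1)) :=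
    ⟨fun n => Nat.rec g0 (fun j x => x * v ((τ j)⁻¹ * τ (j + 1))) n, rfl, fun _ => rfl⟩
  have hc : ∀ j, ((s j : G) : G ⧸ M) = τ j := by
    intro j
    induction j with
    | zero => rw [hs0]; exact h0
    | succ j ih =>
      rw [hs, QuotientGroup.mk_mul, ih, hv1]
      exact mul_inv_cancel_left _ _
  refine ⟨s, hs0, hc, ?_⟩
  intro j
  unfold GH.d
  rw [hs j, show (s j)⁻¹ * (s j * v ((τ j)⁻¹ * τ (j + 1))) = v ((τ j)⁻¹ * τ (j + 1)) by group, hv2]

/-- a path of the quotient which is geodesic and whose ends are near to a big edge has an edge on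
the line of the big edge -/
theorem transferG {H : GH G} {c θ T : ℕ} {L : LS H c θ T} {n : L.ι → ℕ} {M : Subgroup G}
    [M.Normal] (F : Fv L n M) {E : GH G} {Θ : ℕ} (C : L.Cone E Θ) {Q : GH (G ⧸ M)}
    (hQ1 : ∀ g : G, Q.len (g : G ⧸ M) ≤ E.len g)
    (hQ2 : ∀ q : G ⧸ M, ∃ g : G, (g : G ⧸ M) = q ∧ E.len g = Q.len q)
    {γ : ℕ → G} {l : ℕ} (hγ : E.Geod γ l) (hQγ : Q.d (γ 0 : G ⧸ M) (γ l) = l)
    (hang : ∀ (i : L.ι) (u : G), 2 * |L.s i u (γ 0) (γ l)| < n i + T * (2 * c + 1))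
    {K' k : ℕ} (hk1 : K' + 2 ≤ k) (hk2 : k + 1 + (K' + 2) ≤ l)
    (hbig : 2 * c + θ + 10 * Θ + 10 ≤ H.d (γ k) (γ (k + 1)))
    {i : L.ι} (hi : (γ k)⁻¹ * γ (k + 1) ∈ Subgroup.zpowers (L.x i))
    (hn : ∀ i, (6 * K' + 20) * (T * (2 * c + θ + 10 * Θ + 10) + 1) + 24 * L.thr ≤ n i)
    {τ : ℕ → G ⧸ M} {N2 : ℕ} (hτ : Q.Geod τ N2)
    (h1 : Q.d (γ (k - (K' + 2)) : G ⧸ M) (τ N2) ≤ K')
    (h2 : Q.d (γ (k + 1 + (K' + 2)) : G ⧸ M) (τ 0) ≤ K') :
    ∃ j < N2, (∃ t : ℤ, τ j = ((γ k * L.x i ^ t : G) : G ⧸ M)) ∧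
      ∃ t : ℤ, τ (j + 1) = ((γ k * L.x i ^ t : G) : G ⧸ M) := by
  have hT : 1 ≤ T := L.cl_T i
  set B : ℕ := 2 * c + θ + 10 * Θ + 10 with hB
  set w : ℕ := K' + 2 with hw
  obtain ⟨a, ha⟩ : ∃ a, a + w = k := ⟨k - w, by omega⟩
  set N : ℕ := 2 * w + 1 with hN
  have ha' : k - w = a := by omega
  have hb' : k + 1 + w = a + N := by omega
  rw [ha'] at h1
  rw [hb'] at h2
  have haN : a + N ≤ l := by omega
  -- quotient distances
  have hQd : ∀ x y : G, Q.d (x : G ⧸ M) y ≤ E.d x y := by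
    intro x y
    unfold GH.d
    rw [← QuotientGroup.mk_inv, ← QuotientGroup.mk_mul]
    exact hQ1 _
  have hQab : N ≤ Q.d (γ a : G ⧸ M) (γ (a + N)) := by
    have e1 := hQd (γ 0) (γ a)
    have e2 := hQd (γ (a + N)) (γ l)
    have e3 := hγ.sub (show 0 ≤ a by omega) (by omega)
    have e4 := hγ.sub haN le_rfl
    have e5 := Q.d_tri (γ 0 : G ⧸ M) (γ a) (γ l)
    have e6 := Q.d_tri (γ a : G ⧸ M) (γ (a + N)) (γ l)
    omega
  have hQab' : Q.d (γ a : G ⧸ M) (γ (a + N)) ≤ N := by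
    have e1 := hQd (γ a) (γ (a + N))
    have e2 := hγ.sub (show a ≤ a + N by omega) haN
    omega
  have hN2 : N2 ≤ N + 2 * K' := by
    have e1 := hτ.2
    have e2 := Q.d_tri (τ 0) (γ (a + N) : G ⧸ M) (τ N2)
    have e3 := Q.d_tri (γ (a + N) : G ⧸ M) (γ a) (τ N2)
    have e4 := Q.d_comm (τ 0) (γ (a + N) : G ⧸ M)
    have e5 := Q.d_comm (γ (a + N) : G ⧸ M) (γ a)
    omega
  have hN2' : N ≤ N2 + 2 * K' := by
    have e1 := hτ.2
    have e2 := Q.d_tri (γ (a + N) : G ⧸ M) (τ 0) (γ a)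
    have e3 := Q.d_tri (τ 0) (τ N2) (γ a : G ⧸ M)
    have e4 := Q.d_comm (τ N2) (γ a : G ⧸ M)
    have e5 := Q.d_comm (γ (a + N) : G ⧸ M) (γ a)
    omega
  -- lifts
  obtain ⟨v, hv, hvE⟩ := hQ2 ((γ (a + N) : G ⧸ M)⁻¹ * τ 0)
  have hvK : E.len v ≤ K' := by rw [hvE]; exact h2
  obtain ⟨s, s0, s1, s2⟩ := exists_lift_path hQ2 τ (γ (a + N) * v) (by
    rw [QuotientGroup.mk_mul, hv]; group)
  obtain ⟨v1, hv1, hv1E⟩ := hQ2 ((γ a : G ⧸ M)⁻¹ * τ N2)
  have hv1K : E.len v1 ≤ K' := by rw [hv1E]; exact h1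
  set m1 : G := s N2 * v1⁻¹ * (γ a)⁻¹ with hm1
  have hm1M : m1 ∈ M := by
    have : ((m1 : G) : G ⧸ M) = 1 := by
      rw [hm1, QuotientGroup.mk_mul, QuotientGroup.mk_mul,
        QuotientGroup.mk_inv, QuotientGroup.mk_inv, s1, hv1]
      group
    exact (QuotientGroup.eq_one_iff _).1 this
  -- the polygon
  let P : ℕ → G := fun j => if j ≤ N then γ (a + j) else
    if j ≤ N + 1 + N2 then s (j - (N + 1)) else m1 * γ a
  have P1 : ∀ j, j ≤ N → P j = γ (a + j) := fun j hj => if_pos hj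
  have P2 : ∀ j, j ≤ N2 → P (N + 1 + j) = s j := by
    intro j hj
    simp only [P]
    rw [if_neg (by omega), if_pos (by omega)]
    congr 1
    omega
  have P3 : P (N + N2 + 2) = m1 * γ a := by
    simp only [P]
    rw [if_neg (by omega), if_neg (by omega)]
  let Rel : ℕ → G → G → Prop := fun j x y =>
    (j ≠ N → j ≠ N + N2 + 1 → trEv L n M (P j) (P (j + 1)) x y) ∧
    ((j = N ∨ j = N + N2 + 1) → E.d x y ≤ K')
  have hAlt : T * (c + θ + 1) < T * B + 1 := by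
    have : T * (c + θ + 1) ≤ T * B := Nat.mul_le_mul_left _ (by omega)
    omega
  have hTB : T * (2 * c + 1) ≤ T * B := Nat.mul_le_mul_left _ (by omega)
  have hTΘ : T * Θ ≤ T * B := Nat.mul_le_mul_left _ (by omega)
  have hmul : 20 * (T * B + 1) ≤ (6 * K' + 20) * (T * B + 1) := Nat.mul_le_mul_right _ (by omega)
  have hn20 : ∀ i, 20 * (T * B + 1) ≤ n i := fun i => by have := hn i; omega
  obtain ⟨P', hRel, hclosed, hcls⟩ := aClose G H c θ T L n M F (T * B + 1) (N + N2 + 2)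
    (by
      intro i
      have h0 := hn i
      have : (N + N2 + 2) * (T * B + 1) ≤ (6 * K' + 20) * (T * B + 1) :=
        Nat.mul_le_mul_right _ (by omega)
      omega)
    (fun i => by have := hn i; omega) Rel
    (by
      rintro j - m hm x y ⟨r1, r2⟩
      refine ⟨fun e1 e2 => trEv_mul (r1 e1 e2) hm, fun e1 => ?_⟩
      rw [E.d_mul]
      exact r2 e1)
    (by
      rintro j - x y ⟨r1, r2⟩ i' u' hs l'
      refine ⟨fun e1 e2 => trEv_rot (r1 e1 e2) hAlt hs l', fun e1 => ?_⟩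
      have h3 : Θ < L.D i' u' x y := by
        apply L.rg_D_gt
        have h4 : ((T * Θ : ℕ) : ℤ) < ((T * B + 1 : ℕ) : ℤ) := by
          exact_mod_cast Nat.lt_succ_of_le hTΘ
        linarith
      exact (L.rot_cone C (n := n i') h3.le _).trans (r2 e1))
    P
    (by
      intro j hj
      refine ⟨fun e1 e2 => trEv_refl C ?_, ?_⟩
      · rcases Nat.lt_or_ge j N with h3 | h3
        · rw [P1 j h3.le, P1 (j + 1) h3]
          exact hγ.1 (a + j) (by omega)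
        · obtain ⟨j', rfl⟩ : ∃ j', j = N + 1 + j' := ⟨j - (N + 1), by omega⟩
          rw [P2 j' (by omega), show N + 1 + j' + 1 = N + 1 + (j' + 1) by ring, P2 (j' + 1) (by omega),
            s2]
          exact hτ.1 j' (by omega)
      · rintro (rfl | rfl)
        · rw [P1 N le_rfl, show N + 1 = N + 1 + 0 by rfl, P2 0 (by omega), s0]
          unfold GH.d
          rw [show (γ (a + N))⁻¹ * (γ (a + N) * v) = v by group]
          exact hvK
        · rw [show N + N2 + 1 + 1 = N + N2 + 2 by rfl, P3, show N + N2 + 1 = N + 1 + N2 by ring,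
            P2 N2 le_rfl, E.d_comm]
          unfold GH.d
          rw [hm1, show (s N2 * v1⁻¹ * (γ a)⁻¹ * γ a)⁻¹ * s N2 = v1 by group]
          exact hv1K)
    ⟨m1, hm1M, by rw [P3, P1 0 (by omega), Nat.add_zero]⟩
  -- classes
  have cls1 : ∀ j, j ≤ N → ((P' j : G) : G ⧸ M) = γ (a + j) := by
    intro j hj
    obtain ⟨m, hm, h3⟩ := hcls j (by omega)
    rw [h3, P1 j hj, QuotientGroup.mk_mul, (QuotientGroup.eq_one_iff m).2 hm, one_mul]
  have cls2 : ∀ j, j ≤ N2 → ((P' (N + 1 + j) : G) : G ⧸ M) = τ j := by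
    intro j hj
    obtain ⟨m, hm, h3⟩ := hcls (N + 1 + j) (by omega)
    rw [h3, P2 _ hj, QuotientGroup.mk_mul, (QuotientGroup.eq_one_iff m).2 hm,
      one_mul, s1]
  -- the two geodesics
  have geo1 : E.Geod P' N := by
    have st : ∀ j, j < N → E.d (P' j) (P' (j + 1)) ≤ 1 := fun j hj =>
      trEv_le C ((hRel j (by omega)).1 (by omega) (by omega))
    refine ⟨st, ?_⟩
    have e1 := E.rg_walk P' N st 0 N (by omega) le_rfl
    have e2 := hQd (P' 0) (P' N)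
    rw [cls1 0 (by omega), cls1 N le_rfl, Nat.add_zero] at e2
    omega
  have geo2 : E.Geod (fun j => P' (N + 1 + j)) N2 := by
    have st : ∀ j, j < N2 → E.d (P' (N + 1 + j)) (P' (N + 1 + (j + 1))) ≤ 1 := by
      intro j hj
      exact trEv_le C ((hRel (N + 1 + j) (by omega)).1 (by omega) (by omega))
    refine ⟨st, ?_⟩
    have e1 := E.rg_walk (fun j => P' (N + 1 + j)) N2 st 0 N2 (by omega) le_rfl
    have e2 := hQd (P' (N + 1 + 0)) (P' (N + 1 + N2))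
    rw [cls2 0 (by omega), cls2 N2 le_rfl, hτ.2] at e2
    simp only [] at e1 ⊢
    omega
  have sh1 : E.d (P' N) (P' (N + 1)) ≤ K' := (hRel N (by omega)).2 (Or.inl rfl)
  have sh2 : E.d (P' (N + N2 + 1)) (P' 0) ≤ K' := by
    have := (hRel (N + N2 + 1) (by omega)).2 (Or.inr rfl)
    rwa [show N + N2 + 1 + 1 = N + N2 + 2 by rfl, hclosed] at this
  -- the big edge
  obtain ⟨t0, ht0⟩ := hi
  have ht0' : L.x i ^ t0 = (γ k)⁻¹ * γ (k + 1) := ht0
  have hbig' : B ≤ H.len (L.x i ^ t0) := by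
    rw [ht0']; exact hbig
  have edge := (hRel w (by omega)).1 (by omega) (by omega)
  rw [P1 w (by omega), P1 (w + 1) (by omega), ha, show a + (w + 1) = k + 1 by omega] at edge
  obtain ⟨t, htx, m', hm', e1, e2, q1, q2, qd⟩ : ∃ t : ℤ, L.x i ^ t = (γ k)⁻¹ * γ (k + 1) ∧
      ∃ m ∈ M, ∃ e1 e2 : ℤ, P' w = m * γ k * L.x i ^ e1 ∧ P' (w + 1) = m * γ k * L.x i ^ e2 ∧
        (n i : ℤ) ∣ e2 - e1 - t := by
    rcases edge with ⟨h3, -⟩ | ⟨j, t, h3, m', hm', e1, e2, q1, q2, qd⟩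
    · omega
    · have hij : i = j := by
        have h4 : θ < L.D i 1 (1 * L.x j ^ (0 : ℤ)) (1 * L.x j ^ t) := by
          rw [← h3, ← ht0']
          have h5 := L.D_self_line i (1 * L.x j ^ (0 : ℤ)) (1 * L.x i ^ t0) t0 (by group)
          have h6 : L.D i 1 (1 * L.x j ^ (0 : ℤ)) (1 * L.x i ^ t0) =
              L.D i (1 * L.x j ^ (0 : ℤ)) (1 * L.x j ^ (0 : ℤ)) (1 * L.x i ^ t0) := by
            rw [show (1 : G) * L.x j ^ (0 : ℤ) = 1 by group]
          rw [h6, h5]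
          unfold GH.d
          rw [show (1 * L.x j ^ (0 : ℤ))⁻¹ * (1 * L.x i ^ t0) = L.x i ^ t0 by group]
          omega
        exact (L.rg_same h4).1
      subst hij
      exact ⟨t, h3.symm, m', hm', e1, e2, q1, q2, qd⟩
  -- the angle
  have hk_l : k < l := by omega
  have on0 : L.On i (γ k) (γ k) := by
    unfold LS.On
    rw [inv_mul_cancel]
    exact Subgroup.one_mem _
  have on1 : L.On i (γ k) (γ (k + 1)) := ⟨t0, ht0⟩
  have hst : L.s i (γ k) (γ k) (γ (k + 1)) = t := by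
    unfold LS.s
    rw [← htx, inv_mul_cancel]
    have := L.shift i t 1
    rw [mul_one] at this
    rw [this]; ring
  have hleft := tr_left C hγ hk_l on1
  have hright := tr_right C hγ hk_l on0
  have hang' := hang i (γ k)
  have htb : 2 * |t| < n i + T * (2 * c + 1) + 4 * T * Θ := by
    have s1 := L.rg_s_add i (γ k) (γ 0) (γ k) (γ l)
    have s2 := L.rg_s_add i (γ k) (γ k) (γ (k + 1)) (γ l)
    rw [hst] at s2
    have b1 := L.rg_s_le i (γ k) (γ 0) (γ k)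
    have b2 := L.rg_s_le i (γ k) (γ (k + 1)) (γ l)
    have b3 : ((T * L.D i (γ k) (γ 0) (γ k) : ℕ) : ℤ) ≤ ((T * Θ : ℕ) : ℤ) := by
      exact_mod_cast Nat.mul_le_mul_left T hleft.le
    have b4 : ((T * L.D i (γ k) (γ (k + 1)) (γ l) : ℕ) : ℤ) ≤ ((T * Θ : ℕ) : ℤ) := by
      exact_mod_cast Nat.mul_le_mul_left T hright.le
    push_cast at b3 b4
    have ht : t = L.s i (γ k) (γ 0) (γ l) - L.s i (γ k) (γ 0) (γ k) -
        L.s i (γ k) (γ (k + 1)) (γ l) := by linarith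
    have h3 : |t| ≤ |L.s i (γ k) (γ 0) (γ l)| + |L.s i (γ k) (γ 0) (γ k)| +
        |L.s i (γ k) (γ (k + 1)) (γ l)| := by
      rw [ht]
      calc |L.s i (γ k) (γ 0) (γ l) - L.s i (γ k) (γ 0) (γ k) -
          L.s i (γ k) (γ (k + 1)) (γ l)| ≤ |L.s i (γ k) (γ 0) (γ l) - L.s i (γ k) (γ 0) (γ k)| +
          |L.s i (γ k) (γ (k + 1)) (γ l)| := abs_sub _ _
        _ ≤ _ := by
          have := abs_sub (L.s i (γ k) (γ 0) (γ l)) (L.s i (γ k) (γ 0) (γ k))
          linarith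
    linarith
  have hlen : B ≤ H.len (L.x i ^ (e2 - e1)) :=
    tr_len (L := L) hT hB.symm (by rw [htx]; exact hbig) htb (hn20 i) qd
  -- projections to the line Y = (i, P' w)
  have onw : L.On i (P' w) (P' w) := by
    unfold LS.On
    rw [inv_mul_cancel]
    exact Subgroup.one_mem _
  have hedge : (P' w)⁻¹ * P' (w + 1) = L.x i ^ (e2 - e1) := by
    rw [q1, q2, zpow_sub]
    rw [show (m' * γ k * L.x i ^ e1)⁻¹ * (m' * γ k * L.x i ^ e2) =
      (L.x i ^ e1)⁻¹ * L.x i ^ e2 by group]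
    exact ((Commute.refl (L.x i)).zpow_zpow e1 e2).inv_left.eq
  have onw1 : L.On i (P' w) (P' (w + 1)) := by
    unfold LS.On
    rw [hedge]
    exact Subgroup.zpow_mem_zpowers _ _
  have hDw : B ≤ L.D i (P' w) (P' w) (P' (w + 1)) := by
    rw [L.D_self_line i (P' w) (P' (w + 1)) (e2 - e1) hedge]
    unfold GH.d
    rw [hedge]
    exact hlen
  have hl1 := tr_left C geo1 (show w < N by omega) onw1
  have hr1 := tr_right C geo1 (show w < N by omega) onw
  -- the short sides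
  have s0' : L.D i (P' w) (P' 0) (P' (N + N2 + 1)) < Θ := by
    by_contra hc
    push Not at hc
    obtain ⟨y, hy, hy'⟩ := L.rg_enter C hc
    have k1 := L.rg_on_le C hy onw
    have k2 := E.d_tri (P' 0) y (P' w)
    have k3 := geo1.sub (show 0 ≤ w by omega) (by omega)
    rw [E.d_comm] at sh2
    omega
  have sN : L.D i (P' w) (P' N) (P' (N + 1)) < Θ := by
    by_contra hc
    push Not at hc
    obtain ⟨y, hy, hy'⟩ := L.rg_enter C hc
    have k1 := L.rg_on_le C onw1 hy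
    have k2 := E.d_tri (P' (w + 1)) y (P' N)
    have k3 := geo1.sub (show w + 1 ≤ N by omega) le_rfl
    have k4 := E.d_comm y (P' N)
    omega
  have hbig2 : Θ ≤ L.D i (P' w) (P' (N + 1)) (P' (N + 1 + N2)) := by
    rw [show N + 1 + N2 = N + N2 + 1 by ring]
    have d1 := L.rg_D_tri i (P' w) (P' w) (P' 0) (P' (w + 1))
    have d2 := L.rg_D_tri i (P' w) (P' 0) (P' (N + N2 + 1)) (P' (w + 1))
    have d3 := L.rg_D_tri i (P' w) (P' (N + N2 + 1)) (P' (N + 1)) (P' (w + 1))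
    have d4 := L.rg_D_tri i (P' w) (P' (N + 1)) (P' N) (P' (w + 1))
    have c1 := L.rg_D_symm i (P' w) (P' 0) (P' w)
    have c2 := L.rg_D_symm i (P' w) (P' N) (P' (N + 1))
    have c3 := L.rg_D_symm i (P' w) (P' (w + 1)) (P' N)
    have c4 := L.rg_D_symm i (P' w) (P' (N + 1)) (P' (N + N2 + 1))
    omega
  -- the edge of the second geodesic
  obtain ⟨j, hj, onj, onj'⟩ := C.e2 i (P' w) (fun j => P' (N + 1 + j)) N2 geo2 hbig2
  refine ⟨j, hj, ?_⟩
  have key : ∀ j ≤ N2, L.On i (P' w) (P' (N + 1 + j)) →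
      ∃ t : ℤ, τ j = ((γ k * L.x i ^ t : G) : G ⧸ M) := by
    rintro j hj ⟨t, ht⟩
    refine ⟨t, ?_⟩
    have ht' : P' (N + 1 + j) = P' w * L.x i ^ t := by
      rw [show L.x i ^ t = (P' w)⁻¹ * P' (N + 1 + j) from ht]
      group
    rw [← cls2 j hj, ht', QuotientGroup.mk_mul, cls1 w (by omega), ha, QuotientGroup.mk_mul]
  exact ⟨key j hj.le onj, key (j + 1) hj onj'⟩

end Pool.Agent.H362.SF
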