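import Pool.Agent.H362.SF.Lim
import Pool.Graph.R_seed8.TH54.BU.Base

/-!
# Sequences of stages over a free group (helper362)
-/

set_option autoImplicit false

namespace Pool.Agent.H362.SF

open Pool.Agent.TH54.BU Pool.Agent.Y45.MON Pool.Agent.Y872.MON

/-- a stage: a quotient of the free group with its geometry -/
structure Stg (X : Type) (K B T N : ℕ) : Type 1 where
  G : Type
  grp : Group G
  H : GH G
  p : FreeGroup X →* G
  surj : Function.Surjective p
  hD : H.D = 4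
  stab : H.Stab T
  acy : H.Acy K B
  tor : Tor G N
  ts : ∀ g : G, IsOfFinOrder g → ∃ u : G, Sp H (u * g * u⁻¹)

instance {X : Type} {K B T N : ℕ} (s : Stg X K B T N) : Group s.G := s.grp

/-- admissible exponent functions -/
structure EV (N n0 : ℕ) {G : Type} [Group G] (ex : G → ℕ) : Prop where
  dv : ∀ g, ex g ∣ N
  ge : ∀ g, n0 ≤ ex g
  cj : ∀ g u, ex (u * g * u⁻¹) = ex g
  iv : ∀ g, ex g⁻¹ = ex g

/-- the relation between successive stages -/
structure NxR {r : ℕ} (w : WP r) (R0 : ℕ) {X : Type} {K B T N : ℕ} (s s' : Stg X K B T N)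
    (ex : s.G → ℕ) (f : s.G →* s'.G) (Xs : Set s.G) : Prop where
  fp : ∀ g, f (s.p g) = s'.p g
  st : StepX w R0 ex Xs s.H s'.H f
  ker : ∀ g, f g = 1 → g ∈ Subgroup.normalClosure {y : s.G | ∃ x ∈ Xs, y = x ^ ex x}

/-- the engine: one step with parameters -/
def Eng {r : ℕ} (w : WP r) (R0 K B T n0 : ℕ) : Prop :=
  ∀ N : ℕ, Odd N → ∀ (G : Type) [Group G] (H : GH G),
      H.D = 4 → H.Stab T → H.Acy K B → Tor G N →
      (∀ g : G, IsOfFinOrder g → ∃ u : G, Sp H (u * g * u⁻¹)) →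
      ∀ ex : G → ℕ, (∀ g, ex g ∣ N ∧ n0 ≤ ex g) → (∀ g u, ex (u * g * u⁻¹) = ex g) →
      (∀ g, ex g⁻¹ = ex g) →
      ∃ (G' : Type) (_ : Group G') (H' : GH G') (f : G →* G') (Xs : Set G),
        H'.D = 4 ∧ H'.Stab T ∧ H'.Acy K B ∧ Tor G' N ∧ StepX w R0 ex Xs H H' f ∧
        ∀ g, f g = 1 → g ∈ Subgroup.normalClosure {y : G | ∃ x ∈ Xs, y = x ^ ex x}

section seq

variable {r : ℕ} {w : WP r} {R0 K B T n0 N : ℕ} {X : Type}

theorem exists_nx (hE : Eng w R0 K B T n0) (hN : Odd N) (s : Stg X K B T N) (ex : s.G → ℕ)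
    (hex : EV N n0 ex) : ∃ (s' : Stg X K B T N) (f : s.G →* s'.G) (Xs : Set s.G),
      NxR w R0 s s' ex f Xs := by
  obtain ⟨G', iG', H', f, Xs, h1, h2, h3, h4, h5, h6⟩ := hE N hN s.G s.H s.hD s.stab s.acy s.tor
    s.ts ex (fun g => ⟨hex.dv g, hex.ge g⟩) hex.cj hex.iv
  let s' : Stg X K B T N :=
    { G := G', grp := iG', H := H', p := f.comp s.p, surj := h5.surj.comp s.surj, hD := h1
      stab := h2, acy := h3, tor := h4, ts := h5.ts }
  exact ⟨s', f, Xs, fun _ => rfl, h5, h6⟩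

/-- the next stage -/
noncomputable def nx (hE : Eng w R0 K B T n0) (hN : Odd N) (s : Stg X K B T N)
    (e : {ex : s.G → ℕ // EV N n0 ex}) : Stg X K B T N :=
  Classical.choose (exists_nx hE hN s e.1 e.2)

theorem nx_spec (hE : Eng w R0 K B T n0) (hN : Odd N) (s : Stg X K B T N)
    (e : {ex : s.G → ℕ // EV N n0 ex}) : ∃ (f : s.G →* (nx hE hN s e).G) (Xs : Set s.G),
      NxR w R0 s (nx hE hN s e) e.1 f Xs :=
  Classical.choose_spec (exists_nx hE hN s e.1 e.2)

/-- a rule chooses the exponents -/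
def Rule (X : Type) (K B T N n0 : ℕ) : Type 1 :=
  ℕ → (s : Stg X K B T N) → {ex : s.G → ℕ // EV N n0 ex}

/-- the sequence of stages given by a rule -/
noncomputable def sqc (hE : Eng w R0 K B T n0) (hN : Odd N) (s0 : Stg X K B T N)
    (ρ : Rule X K B T N n0) : ℕ → Stg X K B T N :=
  fun n => Nat.rec s0 (fun n s => nx hE hN s (ρ n s)) n

theorem sqc_zero (hE : Eng w R0 K B T n0) (hN : Odd N) (s0 : Stg X K B T N)
    (ρ : Rule X K B T N n0) : sqc hE hN s0 ρ 0 = s0 := rfl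

theorem sqc_succ (hE : Eng w R0 K B T n0) (hN : Odd N) (s0 : Stg X K B T N)
    (ρ : Rule X K B T N n0) (n : ℕ) :
    sqc hE hN s0 ρ (n + 1) = nx hE hN (sqc hE hN s0 ρ n) (ρ n (sqc hE hN s0 ρ n)) := rfl

/-- two rules which agree below `t` give the same stages up to `t` -/
theorem sqc_agree (hE : Eng w R0 K B T n0) (hN : Odd N) (s0 : Stg X K B T N)
    (ρ ρ' : Rule X K B T N n0) (t : ℕ) (h : ∀ n < t, ρ n = ρ' n) :
    ∀ n ≤ t, sqc hE hN s0 ρ n = sqc hE hN s0 ρ' n := by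
  intro n
  induction n with
  | zero => intro _; rfl
  | succ n ih =>
    intro hn
    rw [sqc_succ, sqc_succ, ih (by omega), h n (by omega)]

/-- the free group as a stage -/
theorem exists_base (X : Type) (K B T N : ℕ) (hB : 8 * K + 20 ≤ B) (hT : 1 ≤ T) :
    ∃ s0 : Stg X K B T N, Function.Injective s0.p ∧ (∀ g : s0.G, IsOfFinOrder g → g = 1) ∧
      ∀ i, s0.H.len (s0.p (FreeGroup.of i)) = 1 := by
  obtain ⟨H0, hD0, hS0, hA0, hlen0⟩ := base X
  have htf : ∀ g : FreeGroup X, IsOfFinOrder g → g = 1 := by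
    intro g hg
    obtain ⟨m, hm, h⟩ := isOfFinOrder_iff_pow_eq_one.1 hg
    have h1 : g ^ m = 1 ^ m := by rw [h, one_pow]
    exact pow_left_injective hm.ne' h1
  refine ⟨{ G := FreeGroup X
            grp := inferInstance
            H := H0
            p := MonoidHom.id _
            surj := Function.surjective_id
            hD := hD0
            stab := by
              intro g hg m
              calc m ≤ 1 * H0.len (g ^ m) := hS0 g hg m
                _ ≤ T * H0.len (g ^ m) := Nat.mul_le_mul_right _ hT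
            acy := hA0 K B hB
            tor := fun g hg => by rw [htf g hg, one_pow]
            ts := fun g hg => ⟨1, fun k => by
              rw [htf g hg]
              simp [H0.len_one]⟩ }, ?_, ?_, ?_⟩
  · exact fun a b h => h
  · exact htf
  · exact hlen0

/-- the limit of a sequence of stages -/
structure LimD (w : WP r) (R0 : ℕ) (c : ℕ → Stg X K B T N)
    (ef : ∀ n, (c n).G → ℕ) (f : ∀ n, (c n).G →* (c (n + 1)).G) (Xs : ∀ n, Set (c n).G)
    (L : Type) [Group L] (π : ∀ n, (c n).G →* L) (β : FreeGroup X →* L) : Prop where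
  D : LDG w R0 N (fun n => (c n).G) (fun n => (c n).H) f ef Xs L π
  fp : ∀ n g, f n ((c n).p g) = (c (n + 1)).p g
  β : ∀ n g, π n ((c n).p g) = β g
  kr : ∀ n g, f n g = 1 → g ∈ Subgroup.normalClosure {y : (c n).G | ∃ x ∈ Xs n, y = x ^ ef n x}

theorem exists_limD (hE : Eng w R0 K B T n0) (hR : 1 ≤ R0) (hn0 : 2 ≤ n0) (hN : Odd N)
    (s0 : Stg X K B T N) (hs0 : ∀ g : s0.G, IsOfFinOrder g → g = 1) (ρ : Rule X K B T N n0) :
    ∃ (f : ∀ n, (sqc hE hN s0 ρ n).G →* (sqc hE hN s0 ρ (n + 1)).G)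
      (Xs : ∀ n, Set (sqc hE hN s0 ρ n).G) (L : Type) (_ : Group L)
      (π : ∀ n, (sqc hE hN s0 ρ n).G →* L) (β : FreeGroup X →* L),
      LimD w R0 (sqc hE hN s0 ρ) (fun n => (ρ n (sqc hE hN s0 ρ n)).1) f Xs L π β := by
  choose f Xs hfX using fun n => nx_spec hE hN (sqc hE hN s0 ρ n) (ρ n (sqc hE hN s0 ρ n))
  have hst : ∀ n, NxR w R0 (sqc hE hN s0 ρ n) (sqc hE hN s0 ρ (n + 1))
    (ρ n (sqc hE hN s0 ρ n)).1 (f n) (Xs n) := hfX
  obtain ⟨L, iL, π, p1, p2, p3⟩ := exists_lim (G := fun n => (sqc hE hN s0 ρ n).G) f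
    (fun n => (hst n).st.surj)
  have hD : LDG w R0 N (fun n => (sqc hE hN s0 ρ n).G) (fun n => (sqc hE hN s0 ρ n).H) f
      (fun n => (ρ n (sqc hE hN s0 ρ n)).1) Xs L π :=
    { sq :=
        { free := hs0
          tor := fun n => (sqc hE hN s0 ρ n).tor
          st := fun n => (hst n).st
          ts := fun n => (sqc hE hN s0 ρ n).ts
          exd := fun n g => ⟨(ρ n (sqc hE hN s0 ρ n)).2.dv g,
            hn0.trans ((ρ n (sqc hE hN s0 ρ n)).2.ge g)⟩
          exc := fun n => (ρ n (sqc hE hN s0 ρ n)).2.cj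
          exi := fun n => (ρ n (sqc hE hN s0 ρ n)).2.iv }
      R1 := hR
      odd := hN
      sur := p1
      cmp := p2
      ker := p3 }
  refine ⟨f, Xs, L, iL, π, (π 0).comp (sqc hE hN s0 ρ 0).p, hD, fun n => (hst n).fp, ?_,
    fun n => (hst n).ker⟩
  intro n g
  induction n with
  | zero => rfl
  | succ n ih =>
    rw [← ih, ← (hst n).fp, p2]

end seq

end Pool.Agent.H362.SF
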