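import Pool.Agent.H362.SF.Alg

/-!
# Splitting automorphisms of rigid groups are inner (helper362)
-/

set_option autoImplicit false

namespace Pool.Agent.H362.SF

open Pool.Agent.Y45.MON

section

variable {L : Type} [Group L]

theorem pow_inner {φ : MulAut L} {k0 : ℕ} {c : L} (hc : ∀ b, (φ ^ k0) b = c⁻¹ * b * c) (s : ℕ) :
    ∀ b, (φ ^ (k0 * s)) b = (c ^ s)⁻¹ * b * c ^ s := by
  induction s with
  | zero => intro b; simp
  | succ s ih =>
    intro b
    rw [Nat.mul_succ, add_comm, pow_add, MulAut.mul_apply, ih, hc, pow_succ]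
    group

/-- the least positive inner power -/
theorem exists_k0 {φ : MulAut L} {N : ℕ} (hN : 0 < N) (hφ : φ ^ N = 1) :
    ∃ (k0 : ℕ) (c : L), 1 ≤ k0 ∧ k0 ∣ N ∧ (∀ b, (φ ^ k0) b = c⁻¹ * b * c) ∧
      ∀ i, 1 ≤ i → i < k0 → ¬ ∃ c : L, ∀ b, (φ ^ i) b = c * b * c⁻¹ := by
  classical
  have hex : ∃ k, 1 ≤ k ∧ ∃ c : L, ∀ b, (φ ^ k) b = c⁻¹ * b * c :=
    ⟨N, hN, 1, fun b => by rw [hφ]; simp⟩
  obtain ⟨k0, ⟨h1, c, hc⟩, hmin⟩ : ∃ k, (1 ≤ k ∧ ∃ c : L, ∀ b, (φ ^ k) b = c⁻¹ * b * c) ∧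
      ∀ j < k, ¬ (1 ≤ j ∧ ∃ c : L, ∀ b, (φ ^ j) b = c⁻¹ * b * c) :=
    ⟨Nat.find hex, Nat.find_spec hex, fun j hj => Nat.find_min hex hj⟩
  have hmin' : ∀ i, 1 ≤ i → i < k0 → ¬ ∃ c : L, ∀ b, (φ ^ i) b = c * b * c⁻¹ := by
    rintro i hi1 hi2 ⟨d, hd⟩
    exact hmin i hi2 ⟨hi1, d⁻¹, fun b => by rw [hd, inv_inv]⟩
  refine ⟨k0, c, h1, ?_, hc, hmin'⟩
  by_contra hdvd
  have hr1 : 1 ≤ N % k0 := by
    have : N % k0 ≠ 0 := fun h => hdvd (Nat.dvd_of_mod_eq_zero h)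
    omega
  refine hmin' (N % k0) hr1 (Nat.mod_lt _ (by omega)) ⟨c ^ (N / k0), fun b => ?_⟩
  have h2 : (φ ^ (N % k0 + k0 * (N / k0))) (c ^ (N / k0) * b * (c ^ (N / k0))⁻¹) =
      c ^ (N / k0) * b * (c ^ (N / k0))⁻¹ := by
    rw [Nat.mod_add_div, hφ, MulAut.one_apply]
  rw [pow_add, MulAut.mul_apply, pow_inner hc] at h2
  rw [show (c ^ (N / k0))⁻¹ * (c ^ (N / k0) * b * (c ^ (N / k0))⁻¹) * c ^ (N / k0) = b by group]
    at h2
  exact h2

/-- products with few nontrivial factors -/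
theorem prod_blocks {S : Type} [Group S] (F : ℕ → S) (k0 : ℕ) (hk : 1 ≤ k0) (c b : S)
    (h1 : ∀ i, ¬ k0 ∣ i + 1 → F i = 1)
    (h2 : ∀ s, F (k0 * s + (k0 - 1)) = (c ^ (s + 1))⁻¹ * b * c ^ (s + 1)) (T : ℕ) :
    ((List.range (k0 * T)).map F).prod = (c⁻¹ * b) ^ T * c ^ T := by
  induction T with
  | zero => simp
  | succ T ih =>
    obtain ⟨k, rfl⟩ : ∃ k, k0 = k + 1 := ⟨k0 - 1, by omega⟩
    have e1 : List.range ((k + 1) * (T + 1)) = List.range ((k + 1) * T) ++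
        (List.range (k + 1)).map (fun x => (k + 1) * T + x) := by
      rw [Nat.mul_succ, List.range_add]
    rw [e1, List.map_append, List.prod_append, ih, List.map_map, List.range_succ, List.map_append,
      List.prod_append]
    have e2 : ((List.range k).map (F ∘ fun x => (k + 1) * T + x)).prod = 1 := by
      apply List.prod_eq_one
      intro x hx
      obtain ⟨y, hy, rfl⟩ := List.mem_map.1 hx
      rw [List.mem_range] at hy
      apply h1
      rintro ⟨z, hz⟩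
      have hz' : (k + 1) * T + y + 1 = (k + 1) * z := hz
      have h3 : (k + 1) * (z - T) = y + 1 := by
        rw [Nat.mul_sub]
        omega
      rcases Nat.eq_zero_or_pos (z - T) with h4 | h4
      · rw [h4] at h3
        omega
      · have h5 : (k + 1) * 1 ≤ (k + 1) * (z - T) := Nat.mul_le_mul_left _ h4
        omega
    rw [e2, one_mul]
    simp only [List.map_cons, List.map_nil, List.prod_cons, List.prod_nil, mul_one,
      Function.comp_apply]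
    have h3 := h2 T
    rw [Nat.add_sub_cancel] at h3
    rw [h3, pow_succ (c⁻¹ * b) T, pow_succ c T, mul_inv_rev]
    group

end

theorem split_rigid {w : WP 2} (hw1 : w.δ 1 = 2) {n0 N : ℕ} (hN : 0 < N) {L : Type} [Group L]
    (h : RG w N L) {rk : L → ℕ}
    (hrk : ∀ (j : Fin 2) (a b : L), a * b ≠ b * a →
      rk a < rk (vv w j a b) ∧ rk b < rk (vv w j a b))
    (hrig : ∀ (j j' : Fin 2) (A B A' B' h : L), A * B ≠ B * A → A' * B' ≠ B' * A' →
      h * vv w j A B * h⁻¹ = vv w j' A' B' →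
      j = j' ∧ ∃ g : L, A' = g * A * g⁻¹ ∧ B' = g * B * g⁻¹)
    {a0 b0 : L} (hab : a0 * b0 ≠ b0 * a0)
    (hZ : ∀ Z : Set L, Z.Finite → ∃ R : ℕ, ∀ A B : L, A * B ≠ B * A → R < rk (vv w 0 A B) →
      ∀ e : ℕ, e ∣ N → n0 ≤ e → ∃ (S : Type) (_ : Group S) (q : L →* S),
        Function.Surjective q ∧ RG w N S ∧ q (vv w 0 A B) ^ e = 1 ∧
        (∀ z ∈ Z, ∀ z' ∈ Z, z * z' ≠ z' * z → q z * q z' ≠ q z' * q z) ∧
        (∀ z ∈ Z, ∀ z' ∈ Z, ∀ h : S, h * q z * h⁻¹ = q z' → ∃ g : L, g * z * g⁻¹ = z') ∧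
        ∀ (j : Fin 2) (a b : S), a * b ≠ b * a → orderOf (vv w j a b) = N ∨
          (j = 0 ∧ ∃ g : S, a = g * q A * g⁻¹ ∧ b = g * q B * g⁻¹))
    {e : ℕ} (he : e ∣ N) (he0 : n0 ≤ e) (heN : e < N)
    (φ : MulAut L) (hφ : φ ^ N = 1)
    (hnorm : ∀ b : L, ((List.range N).map fun i => (φ ^ (i + 1)) b).prod = 1) :
    ∃ g : L, ∀ b : L, φ b = g⁻¹ * b * g := by
  have hinf : Infinite L := rg_infinite h hrk hab
  have hepos : 0 < e := Nat.pos_of_dvd_of_pos he hN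
  obtain ⟨k0, c, hk1, hkN, hc, hni⟩ := exists_k0 (L := L) hN hφ
  by_contra hcon
  have hk2 : 1 < k0 := by
    rcases Nat.lt_or_ge 1 k0 with h1 | h1
    · exact h1
    · exfalso
      have : k0 = 1 := by omega
      subst this
      apply hcon
      refine ⟨c, fun b => ?_⟩
      have := hc b
      rwa [pow_one] at this
  -- the pair
  obtain ⟨A, B, hAB, hpair⟩ := h.exists_pair hN hab φ k0 hni
  obtain ⟨z, hz⟩ : ∃ z, z = vv w 0 A B := ⟨_, rfl⟩
  have map_ne : ∀ (ψ : MulAut L) (x y : L), x * y ≠ y * x → ψ x * ψ y ≠ ψ y * ψ x := by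
    intro ψ x y hxy hcc
    apply hxy
    rw [← map_mul, ← map_mul] at hcc
    exact ψ.injective hcc
  have mapv : ∀ (ψ : MulAut L) (j : Fin 2) (x y : L), ψ (vv w j x y) = vv w j (ψ x) (ψ y) :=
    fun ψ j x y => map_vv w ψ.toMonoidHom j x y
  have mapn : ∀ (ψ : MulAut L) (x y : L) (k : ℕ), ψ (nst w x y k) = nst w (ψ x) (ψ y) k :=
    fun ψ x y k => map_nst w ψ.toMonoidHom x y k
  have hzc : ∀ i, 1 ≤ i → i < k0 → ¬ ∃ g : L, g * z * g⁻¹ = (φ ^ i) z := by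
    rintro i hi1 hi2 ⟨g, hg⟩
    rw [hz, mapv] at hg
    obtain ⟨-, g', h1, h2⟩ := hrig 0 0 A B _ _ g hAB (map_ne (φ ^ i) A B hAB) hg
    exact hpair i hi1 hi2 ⟨g', h1, h2⟩
  have hzA : z * A ≠ A * z := by
    rw [hz]
    exact fun hcc => (h.nc 0 A B hAB).1 hcc.symm
  -- the finite set and the pair for the quotient
  obtain ⟨R, hR⟩ := hZ (⋃ i ∈ Finset.range (k0 + 1), {(φ ^ i) z, (φ ^ i) A}) (by
    refine Set.Finite.biUnion (Finset.finite_toSet _) fun i _ => ?_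
    exact Set.toFinite _)
  have memz : ∀ i, i ≤ k0 → (φ ^ i) z ∈ (⋃ i ∈ Finset.range (k0 + 1),
      ({(φ ^ i) z, (φ ^ i) A} : Set L)) := by
    intro i hi
    simp only [Set.mem_iUnion]
    exact ⟨i, Finset.mem_range.2 (by omega), Or.inl rfl⟩
  have memA : ∀ i, i ≤ k0 → (φ ^ i) A ∈ (⋃ i ∈ Finset.range (k0 + 1),
      ({(φ ^ i) z, (φ ^ i) A} : Set L)) := by
    intro i hi
    simp only [Set.mem_iUnion]
    exact ⟨i, Finset.mem_range.2 (by omega), Or.inr rfl⟩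
  obtain ⟨Y, hY⟩ : ∃ Y, Y = nst w z A (R + 1) := ⟨_, rfl⟩
  have hzY : z * Y ≠ Y * z := by rw [hY]; exact h.nst_nc hzA _
  have hrkY : R < rk (vv w 0 z Y) := by
    have h1 := nst_rk h hrk hzA (R + 1)
    have h2 := (hrk 0 z Y hzY).2
    rw [← hY] at h1
    omega
  obtain ⟨S, iS, q, hqs, hS, hqe, hqnc, hqcj, hqo⟩ := hR z Y hzY hrkY e he he0
  obtain ⟨u, hu⟩ : ∃ u, u = vv w 0 z Y := ⟨_, rfl⟩
  rw [← hu] at hqe
  have hz0 : (φ ^ 0) z = z := by rw [pow_zero, MulAut.one_apply]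
  have hA0 : (φ ^ 0) A = A := by rw [pow_zero, MulAut.one_apply]
  -- the conjugates of the word do not have order `e`
  have hui : ∀ i, 1 ≤ i → i < k0 → q ((φ ^ i) (u ^ e)) ≠ 1 := by
    intro i hi1 hi2 hq1
    have h1 : q ((φ ^ i) z) * q ((φ ^ i) A) ≠ q ((φ ^ i) A) * q ((φ ^ i) z) :=
      hqnc _ (memz i (by omega)) _ (memA i (by omega)) (map_ne _ _ _ hzA)
    have h2 : q ((φ ^ i) z) * q ((φ ^ i) Y) ≠ q ((φ ^ i) Y) * q ((φ ^ i) z) := by
      rw [hY, mapn, map_nst]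
      exact hS.nst_nc h1 _
    have h3 : q ((φ ^ i) u) = vv w 0 (q ((φ ^ i) z)) (q ((φ ^ i) Y)) := by
      rw [hu, mapv, map_vv]
    rcases hqo 0 _ _ h2 with h4 | ⟨-, g, h4, -⟩
    · rw [map_pow, map_pow, h3] at hq1
      have h5 := orderOf_dvd_of_pow_eq_one hq1
      rw [h4] at h5
      have := Nat.le_of_dvd hepos h5
      omega
    · obtain ⟨g', hg'⟩ := hqcj _ (by have := memz 0 (by omega); rwa [hz0] at this) _
        (memz i (by omega)) g h4.symm
      exact hzc i hi1 hi2 ⟨g', hg'⟩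
  -- `S` is not abelian
  have hSab : q z * q A ≠ q A * q z := by
    have := hqnc _ (memz 0 (by omega)) _ (memA 0 (by omega)) (by rw [hz0, hA0]; exact hzA)
    rwa [hz0, hA0] at this
  have hSne : q z ≠ 1 := by
    intro h1
    rw [h1] at hSab
    simp at hSab
  -- an element in the intersection
  have hint : ∀ m, 1 ≤ m → m ≤ k0 → ∃ d : L, (∀ i, 1 ≤ i → i < m → q ((φ ^ i)⁻¹ d) = 1) ∧
      q d ≠ 1 := by
    intro m hm
    induction m, hm using Nat.le_induction with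
    | base => intro _; exact ⟨z, fun i h1 h2 => by omega, hSne⟩
    | succ m hm ih =>
      intro hmk
      obtain ⟨d, hd1, hd2⟩ := ih (by omega)
      obtain ⟨g, hg⟩ := hS.exists_conj hSab hd2 (hui m hm (by omega))
      obtain ⟨g', rfl⟩ := hqs g
      obtain ⟨y, hy⟩ : ∃ y, y = g' * (φ ^ m) (u ^ e) * g'⁻¹ := ⟨_, rfl⟩
      have hqy : q y = q g' * q ((φ ^ m) (u ^ e)) * (q g')⁻¹ := by
        rw [hy, map_mul, map_mul, map_inv]
      rw [← hqy] at hg
      have hy1 : q ((φ ^ m)⁻¹ y) = 1 := by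
        have e1 : (φ ^ m)⁻¹ ((φ ^ m) (u ^ e)) = u ^ e := by
          rw [← MulAut.mul_apply, inv_mul_cancel, MulAut.one_apply]
        rw [hy, map_mul (φ ^ m)⁻¹, map_mul (φ ^ m)⁻¹, e1, map_inv (φ ^ m)⁻¹, map_mul, map_mul,
          map_pow, hqe, map_inv]
        simp
      refine ⟨d * y * d⁻¹ * y⁻¹, ?_, ?_⟩
      · intro i hi1 hi2
        rw [map_mul (φ ^ i)⁻¹, map_mul (φ ^ i)⁻¹, map_mul (φ ^ i)⁻¹, map_inv (φ ^ i)⁻¹,
          map_inv (φ ^ i)⁻¹, map_mul, map_mul, map_mul, map_inv, map_inv]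
        rcases Nat.lt_or_ge i m with h1 | h1
        · rw [hd1 i hi1 h1]
          simp
        · have : i = m := by omega
          subst this
          rw [hy1]
          simp
      · rw [map_mul, map_mul, map_mul, map_inv, map_inv]
        exact comm_ne_one hg
  obtain ⟨d, hd1, hd2⟩ := hint k0 hk1 le_rfl
  -- the element `b`
  obtain ⟨b, hb1, hb2⟩ : ∃ b : L, (∀ i, 1 ≤ i → i < k0 → q ((φ ^ i)⁻¹ b) = 1) ∧
      orderOf (q (b * c⁻¹)) = N := by
    have hKconj : ∀ g' : L, ∀ i, 1 ≤ i → i < k0 → q ((φ ^ i)⁻¹ (g' * d * g'⁻¹)) = 1 := by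
      intro g' i h1 h2
      rw [map_mul (φ ^ i)⁻¹, map_mul (φ ^ i)⁻¹, map_inv (φ ^ i)⁻¹, map_mul, map_mul,
        hd1 i h1 h2, map_inv]
      simp
    by_cases hqc : q c = 1
    · obtain ⟨g, hg⟩ := hS.exists_conj hSab hd2 hd2
      obtain ⟨g', rfl⟩ := hqs g
      have hg2 : q d * q (g' * d * g'⁻¹) ≠ q (g' * d * g'⁻¹) * q d := by
        rw [map_mul, map_mul, map_inv]
        exact hg
      refine ⟨vv w 1 d (g' * d * g'⁻¹), ?_, ?_⟩
      · intro i h1 h2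
        rw [mapv, map_vv, hd1 i h1 h2, hKconj g' i h1 h2]
        exact vv_one_one 1
      · rw [map_mul, map_inv, hqc, inv_one, mul_one, map_vv]
        rcases hqo 1 _ _ hg2 with h4 | ⟨h4, -⟩
        · exact h4
        · exact absurd h4 (by decide)
    · have hqc' : q c⁻¹ ≠ 1 := by
        rw [map_inv]
        exact fun h1 => hqc (inv_eq_one.1 h1)
      obtain ⟨g, hg⟩ := hS.exists_conj hSab hqc' hd2
      obtain ⟨g', rfl⟩ := hqs g
      have hg2 : q c⁻¹ * q (g' * d * g'⁻¹) ≠ q (g' * d * g'⁻¹) * q c⁻¹ := by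
        rw [map_mul q (g' * d), map_mul q g', map_inv q g']
        exact hg
      refine ⟨vv w 1 c⁻¹ (g' * d * g'⁻¹) * c, ?_, ?_⟩
      · intro i h1 h2
        rw [map_mul (φ ^ i)⁻¹, mapv, map_mul q, map_vv, hKconj g' i h1 h2, vv_one hw1,
          ← map_mul, ← map_mul, inv_mul_cancel, map_one, map_one]
      · rw [mul_inv_cancel_right, map_vv]
        rcases hqo 1 _ _ hg2 with h4 | ⟨h4, -⟩
        · exact h4
        · exact absurd h4 (by decide)
  -- the norm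
  obtain ⟨T, hT⟩ := hkN
  have hT0 : 0 < T := by
    rcases Nat.eq_zero_or_pos T with h1 | h1
    · rw [h1] at hT
      omega
    · exact h1
  have hTN : T < N := by
    rw [hT]
    calc T = 1 * T := (one_mul T).symm
      _ < k0 * T := Nat.mul_lt_mul_of_pos_right hk2 hT0
  have hcT : c ^ T = 1 := by
    have h1 : ∀ x : L, x * c ^ T = c ^ T * x := by
      intro x
      have h2 := pow_inner hc T x
      rw [← hT, hφ, MulAut.one_apply] at h2
      calc x * c ^ T = c ^ T * ((c ^ T)⁻¹ * x * c ^ T) := by group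
        _ = c ^ T * x := by rw [← h2]
    exact h.center hab h1
  have hprod := congrArg q (hnorm b)
  rw [map_one, map_list_prod, List.map_map] at hprod
  have hblk := prod_blocks (q ∘ fun i => (φ ^ (i + 1)) b) k0 hk1 (q c) (q b) (by
    intro i hi
    show q ((φ ^ (i + 1)) b) = 1
    obtain ⟨s, hs⟩ : ∃ s, s = (i + 1) / k0 := ⟨_, rfl⟩
    obtain ⟨r, hr⟩ : ∃ r, r = (i + 1) % k0 := ⟨_, rfl⟩
    have hr0 : r ≠ 0 := by
      rw [hr]
      exact fun h1 => hi (Nat.dvd_of_mod_eq_zero h1)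
    have hrk0 : r < k0 := by
      rw [hr]
      exact Nat.mod_lt _ (by omega)
    have hir : i + 1 = k0 * s + r := by
      rw [hs, hr]
      exact (Nat.div_add_mod _ _).symm
    have h1 := hb1 (k0 - r) (by omega) (by omega)
    have h2 : φ ^ (i + 1) = φ ^ (k0 * (s + 1)) * (φ ^ (k0 - r))⁻¹ := by
      rw [eq_mul_inv_iff_mul_eq, ← pow_add]
      congr 1
      rw [hir, Nat.mul_succ]
      omega
    rw [h2, MulAut.mul_apply, pow_inner hc, map_mul, map_mul, h1, map_inv]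
    simp) (by
    intro s
    show q ((φ ^ (k0 * s + (k0 - 1) + 1)) b) = _
    have h2 : k0 * s + (k0 - 1) + 1 = k0 * (s + 1) := by
      rw [Nat.mul_succ]
      omega
    rw [h2, pow_inner hc, map_mul, map_mul, map_inv, map_pow]) T
  rw [← hT, hprod, ← map_pow q c, hcT, map_one, mul_one] at hblk
  -- the contradiction
  have h9 : (q (b * c⁻¹)) ^ T = 1 := by
    have h10 : q (b * c⁻¹) = q c * ((q c)⁻¹ * q b) * (q c)⁻¹ := by
      rw [map_mul, map_inv]
      group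
    rw [h10, conj_pow, ← hblk]
    simp
  have h11 := orderOf_dvd_of_pow_eq_one h9
  rw [hb2] at h11
  have := Nat.le_of_dvd hT0 h11
  omega

end Pool.Agent.H362.SF
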