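import Pool.Agent.H362.SF.Sep
import Pool.Graph.R_seed8.TH54.BU.MixQ

/-!
# Torsion elements of the quotient with small displacement preserve the big lines (helper362)
-/

set_option autoImplicit false

namespace Pool.Agent.H362.SF

open Pool.Agent.TH54.BU Pool.Agent.Y45.MON Pool.Agent.TH54.BU.LS

section near

variable {Γ : Type} [Group Γ]

/-- a geodesic with ends near to the ends of a geodesic segment passes near to the inner points -/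
theorem near_geod (Q : GH Γ) {a b x y p : Γ} {K2 : ℕ} (h1 : Q.d a x ≤ K2) (h2 : Q.d b y ≤ K2)
    (hp : Q.d a p + Q.d p b = Q.d a b) (h3 : K2 + 2 * Q.D < Q.d a p)
    (h4 : K2 + 2 * Q.D < Q.d p b) {τ : ℕ → Γ} {N2 : ℕ} (hτ : Q.Geod τ N2) (hx : τ 0 = x)
    (hy : τ N2 = y) : ∃ t ≤ N2, Q.d p (τ t) ≤ 2 * Q.D := by
  have hL : Q.d x y = N2 := by rw [← hx, ← hy]; exact hτ.2
  have c1 := Q.d_comm b p
  have c2 := Q.d_comm b x
  have c3 := Q.d_comm x p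
  have c4 := Q.d_comm y p
  have s1 : Q.d p b + Q.d x p ≤ Q.d b x + Q.D := by
    have f := Q.fp a b x p
    rcases le_total (Q.d a x + Q.d b p) (Q.d a p + Q.d b x) with h | h
    · rw [max_eq_right h] at f; omega
    · rw [max_eq_left h] at f; omega
  have s2 : Q.d x p + Q.d y p ≤ Q.d x y + 2 * Q.D := by
    have f := Q.fp x b y p
    rcases le_total (Q.d x y + Q.d b p) (Q.d x p + Q.d b y) with h | h
    · rw [max_eq_right h] at f; omega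
    · rw [max_eq_left h] at f; omega
  have t1 := Q.d_tri y x p
  have t2 := Q.d_tri x y p
  have c5 := Q.d_comm x y
  obtain ⟨t, ht⟩ : ∃ t, t = (Q.d x p + Q.d x y - Q.d y p) / 2 := ⟨_, rfl⟩
  have htN : t ≤ N2 := by omega
  refine ⟨t, htN, ?_⟩
  have g1 : Q.d x (τ t) = t := by
    rw [← hx]
    have := mq_geod_eq hτ (i := 0) (j := t) (by omega) htN
    omega
  have g2 : Q.d (τ t) y = N2 - t := by
    rw [← hy]
    exact mq_geod_eq hτ htN le_rfl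
  have c6 := Q.d_comm x (τ t)
  have f := Q.fp p (τ t) x y
  rcases le_total (Q.d p x + Q.d (τ t) y) (Q.d p y + Q.d (τ t) x) with h | h
  · rw [max_eq_right h] at f; omega
  · rw [max_eq_left h] at f; omega

/-- the part of a geodesic between two of its vertices, in any order -/
theorem sub_geod (Q : GH Γ) {σ : ℕ → Γ} {N : ℕ} (hσ : Q.Geod σ N) {t1 t2 : ℕ} (h1 : t1 ≤ N)
    (h2 : t2 ≤ N) : ∃ (τ : ℕ → Γ) (N2 : ℕ), Q.Geod τ N2 ∧ τ 0 = σ t2 ∧ τ N2 = σ t1 ∧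
      ∀ j < N2, ∃ j' < N, (τ j = σ j' ∧ τ (j + 1) = σ (j' + 1)) ∨
        (τ j = σ (j' + 1) ∧ τ (j + 1) = σ j') := by
  rcases le_total t2 t1 with h | h
  · obtain ⟨m, rfl⟩ := Nat.exists_eq_add_of_le h
    refine ⟨fun j => σ (t2 + j), m, mq_geod_sub hσ h1, rfl, rfl, ?_⟩
    intro j hj
    exact ⟨t2 + j, by omega, Or.inl ⟨rfl, rfl⟩⟩
  · obtain ⟨m, rfl⟩ := Nat.exists_eq_add_of_le h
    refine ⟨fun j => σ (t1 + (m - j)), m, ⟨?_, ?_⟩, ?_, ?_, ?_⟩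
    · intro j hj
      have := hσ.1 (t1 + (m - (j + 1))) (by omega)
      rw [show t1 + (m - (j + 1)) + 1 = t1 + (m - j) by omega] at this
      rw [Q.d_comm]
      exact this
    · have := mq_geod_eq hσ (i := t1) (j := t1 + m) (by omega) h2
      simp only [Nat.sub_zero, Nat.sub_self, Nat.add_zero]
      rw [Q.d_comm, this]
      omega
    · simp only [Nat.sub_zero]
    · simp only [Nat.sub_self, Nat.add_zero]
    · intro j hj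
      refine ⟨t1 + (m - (j + 1)), by omega, Or.inr ⟨?_, ?_⟩⟩
      · simp only []
        congr 1
        omega
      · simp only []

/-- the distance to a set -/
noncomputable def dS (Q : GH Γ) (x : Γ) (S : Set Γ) : ℕ := sInf {n | ∃ p ∈ S, Q.d x p = n}

theorem dS_le (Q : GH Γ) (x : Γ) {S : Set Γ} {p : Γ} (hp : p ∈ S) : dS Q x S ≤ Q.d x p :=
  Nat.sInf_le ⟨p, hp, rfl⟩

theorem dS_mem (Q : GH Γ) (x : Γ) {S : Set Γ} (hS : S.Nonempty) : ∃ p ∈ S, Q.d x p = dS Q x S := by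
  obtain ⟨p, hp⟩ := hS
  exact Nat.sInf_mem (s := {n | ∃ p ∈ S, Q.d x p = n}) ⟨_, p, hp, rfl⟩

/-- the distance of two sets -/
noncomputable def dSS (Q : GH Γ) (R S : Set Γ) : ℕ :=
  sInf {n | ∃ p ∈ R, ∃ y ∈ S, Q.d p y = n}

theorem dSS_le (Q : GH Γ) {R S : Set Γ} {p y : Γ} (hp : p ∈ R) (hy : y ∈ S) :
    dSS Q R S ≤ Q.d p y :=
  Nat.sInf_le ⟨p, hp, y, hy, rfl⟩

theorem dSS_mem (Q : GH Γ) {R S : Set Γ} (hR : R.Nonempty) (hS : S.Nonempty) :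
    ∃ p ∈ R, ∃ y ∈ S, Q.d p y = dSS Q R S := by
  obtain ⟨p, hp⟩ := hR
  obtain ⟨y, hy⟩ := hS
  exact Nat.sInf_mem (s := {n | ∃ p ∈ R, ∃ y ∈ S, Q.d p y = n}) ⟨_, p, hp, y, hy, rfl⟩

end near

variable {G : Type} [Group G]

/-- the image of a line in the quotient -/
def ln {H : GH G} {c θ T : ℕ} (L : LS H c θ T) (M : Subgroup G) (i : L.ι) (u : G) : Set (G ⧸ M) :=
  {q | ∃ t : ℤ, q = ((u * L.x i ^ t : G) : G ⧸ M)}

/-- the standing data: a lifted geodesic of the quotient -/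
structure GD {H : GH G} {c θ T : ℕ} {L : LS H c θ T} {n : L.ι → ℕ} {M : Subgroup G}
    [M.Normal] {E : GH G} {Θ : ℕ} {Q : GH (G ⧸ M)} (γ : ℕ → G) (l : ℕ) : Prop where
  F : Fv L n M
  C : L.Cone E Θ
  hQ1 : ∀ g : G, Q.len (g : G ⧸ M) ≤ E.len g
  hQ2 : ∀ q : G ⧸ M, ∃ g : G, (g : G ⧸ M) = q ∧ E.len g = Q.len q
  hγ : E.Geod γ l
  hQγ : Q.d (γ 0 : G ⧸ M) (γ l) = l
  hang : ∀ (i : L.ι) (u : G), 2 * |L.s i u (γ 0) (γ l)| < n i + T * (2 * c + 1)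

section GD

variable {H : GH G} {c θ T : ℕ} {L : LS H c θ T} {n : L.ι → ℕ} {M : Subgroup G}
  [M.Normal] {E : GH G} {Θ : ℕ} {Q : GH (G ⧸ M)} {γ : ℕ → G} {l : ℕ}

theorem ln_diam (hE : L.Cone E Θ) (hQ1 : ∀ g : G, Q.len (g : G ⧸ M) ≤ E.len g) {i : L.ι} {u : G}
    {p q : G ⧸ M} (hp : p ∈ ln L M i u) (hq : q ∈ ln L M i u) : Q.d p q ≤ 1 := by
  obtain ⟨a, rfl⟩ := hp
  obtain ⟨b, rfl⟩ := hq
  unfold GH.d
  rw [← QuotientGroup.mk_inv, ← QuotientGroup.mk_mul]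
  refine (hQ1 _).trans ((hE.le_one _).2 (Or.inr ⟨i, -a + b, ?_⟩))
  rw [zpow_add, zpow_neg]
  group

theorem GD.Qd (D : GD (L := L) (n := n) (M := M) (E := E) (Θ := Θ) (Q := Q) γ l) {i j : ℕ}
    (hij : i ≤ j) (hj : j ≤ l) : Q.d (γ i : G ⧸ M) (γ j) = j - i := by
  have Qle : ∀ x y : G, Q.d (x : G ⧸ M) y ≤ E.d x y := fun x y => D.hQ1 (x⁻¹ * y)
  have h1 := mq_geod_le D.hγ hij hj
  have h2 := mq_geod_le D.hγ (Nat.zero_le i) (hij.trans hj)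
  have h3 := mq_geod_le D.hγ hj le_rfl
  have h4 := D.hQγ
  have h5 := Q.d_tri (γ 0 : G ⧸ M) (γ i) (γ l)
  have h6 := Q.d_tri (γ i : G ⧸ M) (γ j) (γ l)
  have h7 := Qle (γ i) (γ j)
  have h8 := Qle (γ 0) (γ i)
  have h9 := Qle (γ j) (γ l)
  omega

/-- a big edge separates -/
theorem GD.sep (D : GD (L := L) (n := n) (M := M) (E := E) (Θ := Θ) (Q := Q) γ l)
    {k a b K2 : ℕ} (ha : a + K2 + 4 * Q.D + 3 ≤ k) (hb : k + K2 + 4 * Q.D + 4 ≤ b) (hbl : b ≤ l)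
    (hbig : 2 * c + θ + 10 * Θ + 10 ≤ H.d (γ k) (γ (k + 1)))
    {i : L.ι} (hi : (γ k)⁻¹ * γ (k + 1) ∈ Subgroup.zpowers (L.x i))
    (hn : ∀ i, (12 * Q.D + 20) * (T * (2 * c + θ + 10 * Θ + 10) + 1) + 24 * L.thr ≤ n i)
    {x y : G ⧸ M} (hx : Q.d (γ a : G ⧸ M) x ≤ K2) (hy : Q.d (γ b : G ⧸ M) y ≤ K2) :
    ∃ p ∈ ln L M i (γ k), ∃ p' ∈ ln L M i (γ k), Q.d x p + 1 + Q.d p' y ≤ Q.d x y := by
  obtain ⟨σ, hσ, σ0, σ1⟩ := mq_exists_geod Q x y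
  have e1 := D.Qd (i := a) (j := k - (2 * Q.D + 2)) (by omega) (by omega)
  have e2 := D.Qd (i := k - (2 * Q.D + 2)) (j := b) (by omega) (by omega)
  have e3 := D.Qd (i := a) (j := b) (by omega) (by omega)
  have e4 := D.Qd (i := a) (j := k + 1 + (2 * Q.D + 2)) (by omega) (by omega)
  have e5 := D.Qd (i := k + 1 + (2 * Q.D + 2)) (j := b) (by omega) (by omega)
  obtain ⟨t1, ht1, h1⟩ := near_geod Q (p := (γ (k - (2 * Q.D + 2)) : G ⧸ M)) hx hy (by omega)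
    (by omega) (by omega) hσ σ0 σ1
  obtain ⟨t2, ht2, h2⟩ := near_geod Q (p := (γ (k + 1 + (2 * Q.D + 2)) : G ⧸ M)) hx hy (by omega)
    (by omega) (by omega) hσ σ0 σ1
  obtain ⟨τ, N2, hτ, τ0, τ1, hτσ⟩ := sub_geod Q hσ ht1 ht2
  obtain ⟨j, hj, f1, f2⟩ := transferG D.F D.C D.hQ1 D.hQ2 D.hγ D.hQγ D.hang (K' := 2 * Q.D)
    (k := k) (by omega) (by omega) hbig hi (fun i => by
      have := hn i
      rw [show 6 * (2 * Q.D) + 20 = 12 * Q.D + 20 by ring]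
      exact this) hτ (by rw [τ1]; exact h1) (by rw [τ0]; exact h2)
  obtain ⟨j', hj', hc⟩ := hτσ j hj
  have key : σ j' ∈ ln L M i (γ k) ∧ σ (j' + 1) ∈ ln L M i (γ k) := by
    rcases hc with ⟨c1, c2⟩ | ⟨c1, c2⟩
    · rw [← c1, ← c2]
      exact ⟨f1, f2⟩
    · rw [← c1, ← c2]
      exact ⟨f2, f1⟩
  refine ⟨σ j', key.1, σ (j' + 1), key.2, ?_⟩
  have g1 := mq_geod_eq hσ (Nat.zero_le j') hj'.le
  have g2 := mq_geod_eq hσ (show j' + 1 ≤ Q.d x y by omega) le_rfl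
  rw [σ0] at g1
  rw [σ1] at g2
  omega

/-- a torsion element of small order with small displacement preserves the big lines -/
theorem GD.tor (D : GD (L := L) (n := n) (M := M) (E := E) (Θ := Θ) (Q := Q) γ l)
    {k1 k K' K2 Nb : ℕ} (hK2 : 1 + (Nb + 1) * K' ≤ K2) (h1 : K2 + 4 * Q.D + 3 ≤ k1)
    (h2 : k1 + K2 + 4 * Q.D + 4 ≤ k) (h3 : k + 1 + (K' + 2) ≤ l)
    (hbig1 : 2 * c + θ + 10 * Θ + 10 ≤ H.d (γ k1) (γ (k1 + 1)))
    (hbig : 2 * c + θ + 10 * Θ + 10 ≤ H.d (γ k) (γ (k + 1)))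
    {i1 i : L.ι} (hi1 : (γ k1)⁻¹ * γ (k1 + 1) ∈ Subgroup.zpowers (L.x i1))
    (hi : (γ k)⁻¹ * γ (k + 1) ∈ Subgroup.zpowers (L.x i))
    (hn : ∀ i, (12 * Q.D + 20) * (T * (2 * c + θ + 10 * Θ + 10) + 1) + 24 * L.thr ≤ n i)
    (hn' : ∀ i, (4 * K' + 20) * (T * (2 * c + θ + 10 * Θ + 10) + 1) + 24 * L.thr ≤ n i)
    {g : G ⧸ M} (hg : ∀ j ≤ l, Q.d (γ j : G ⧸ M) (g * γ j) ≤ K') {d : ℕ} (hd : 1 ≤ d)
    (hd' : d ≤ Nb) (hgd : g ^ d = 1) :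
    ∃ t : ℤ, g = ((γ k * L.x i ^ t * (γ k)⁻¹ : G) : G ⧸ M) := by
  -- the sets
  set ℓ1 : Set (G ⧸ M) := ln L M i1 (γ k1) with hℓ1
  set ℓ : Set (G ⧸ M) := ln L M i (γ k) with hℓ
  let S : ℕ → Set (G ⧸ M) := fun m => {y | g ^ m * y ∈ ℓ}
  have mk1 : ((γ k1 : G) : G ⧸ M) ∈ ℓ1 := ⟨0, by rw [zpow_zero, mul_one]⟩
  have mk0 : ((γ k : G) : G ⧸ M) ∈ ℓ := ⟨0, by rw [zpow_zero, mul_one]⟩
  have ne1 : ℓ1.Nonempty := ⟨_, mk1⟩
  have neS : ∀ m, (S m).Nonempty := fun m => ⟨(g ^ m)⁻¹ * γ k, by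
    show g ^ m * ((g ^ m)⁻¹ * γ k) ∈ ℓ
    rw [mul_inv_cancel_left]; exact mk0⟩
  have hdisp : ∀ m ≤ Nb, ∀ j ≤ l, Q.d (γ j : G ⧸ M) (g ^ m * γ j) ≤ Nb * K' := by
    intro m hm j hj
    exact (mq_disp_pow Q (hg j hj) m).trans (Nat.mul_le_mul_right _ hm)
  have hK2' : 1 + Nb * K' ≤ K2 := by
    have : Nb * K' ≤ (Nb + 1) * K' := Nat.mul_le_mul_right _ (by omega)
    omega
  have hKK : K' ≤ K2 := by
    have : 1 * K' ≤ (Nb + 1) * K' := Nat.mul_le_mul_right _ (by omega)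
    omega
  -- additivity
  have add : ∀ m ≤ Nb, ∀ x : G ⧸ M, Q.d (γ 0 : G ⧸ M) x ≤ K2 →
      dS Q x (S m) = dS Q x ℓ1 + 1 + dSS Q ℓ1 (S m) := by
    intro m hm x hx
    apply le_antisymm
    · obtain ⟨p0, hp0, e0⟩ := dS_mem Q x ne1
      obtain ⟨p1, hp1, y1, hy1, e1⟩ := dSS_mem Q ne1 (neS m)
      have t1 := dS_le Q x hy1
      have t2 := Q.d_tri x p0 y1
      have t3 := Q.d_tri p0 p1 y1
      have t4 := ln_diam D.C D.hQ1 hp0 hp1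
      omega
    · obtain ⟨y, hy, e⟩ := dS_mem Q x (neS m)
      have hy2 : Q.d (γ k : G ⧸ M) y ≤ K2 := by
        have t1 : Q.d (g ^ m * y) (γ k : G ⧸ M) ≤ 1 := ln_diam D.C D.hQ1 hy mk0
        have t2 := hdisp m hm k (by omega)
        have t3 := Q.d_tri (γ k : G ⧸ M) ((g ^ m)⁻¹ * γ k) y
        have t4 : Q.d (γ k : G ⧸ M) ((g ^ m)⁻¹ * γ k) = Q.d (g ^ m * γ k) (γ k : G ⧸ M) := by
          rw [← Q.d_mul (g ^ m) (γ k : G ⧸ M) ((g ^ m)⁻¹ * γ k), mul_inv_cancel_left]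
        have t5 : Q.d ((g ^ m)⁻¹ * γ k) y = Q.d (γ k : G ⧸ M) (g ^ m * y) := by
          rw [← Q.d_mul (g ^ m) ((g ^ m)⁻¹ * γ k) y, mul_inv_cancel_left]
        have t6 := Q.d_comm (g ^ m * γ k) (γ k : G ⧸ M)
        have t7 := Q.d_comm (γ k : G ⧸ M) (g ^ m * y)
        omega
      obtain ⟨p, hp, p', hp', hs⟩ := D.sep (k := k1) (a := 0) (b := k) (K2 := K2) (by omega)
        (by omega) (by omega) hbig1 hi1 hn hx hy2
      have t1 : dS Q x ℓ1 ≤ Q.d x p := dS_le Q x hp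
      have t2 : dSS Q ℓ1 (S m) ≤ Q.d p' y := dSS_le Q hp' hy
      omega
  -- the shift
  have shift : ∀ m, dS Q (g * γ 0) (S m) = dS Q (γ 0 : G ⧸ M) (S (m + 1)) := by
    intro m
    unfold dS
    congr 1
    ext r
    constructor
    · rintro ⟨p, hp, e⟩
      refine ⟨g⁻¹ * p, ?_, ?_⟩
      · show g ^ (m + 1) * (g⁻¹ * p) ∈ ℓ
        rw [pow_succ, mul_assoc, mul_inv_cancel_left]
        exact hp
      · rw [← e, ← Q.d_mul g (γ 0 : G ⧸ M) (g⁻¹ * p), mul_inv_cancel_left]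
    · rintro ⟨p, hp, e⟩
      refine ⟨g * p, ?_, ?_⟩
      · show g ^ m * (g * p) ∈ ℓ
        rw [← mul_assoc, ← pow_succ]
        exact hp
      · rw [← e, Q.d_mul]
  have h00 : Q.d (γ 0 : G ⧸ M) (γ 0) ≤ K2 := by rw [Q.d_self]; omega
  have h01 : Q.d (γ 0 : G ⧸ M) (g * γ 0) ≤ K2 := (hg 0 (by omega)).trans hKK
  have lin : ∀ m ≤ Nb, (dS Q (γ 0 : G ⧸ M) (S m) : ℤ) = dS Q (γ 0 : G ⧸ M) (S 0) +
      m * ((dS Q (g * γ 0) ℓ1 : ℤ) - dS Q (γ 0 : G ⧸ M) ℓ1) := by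
    intro m
    induction m with
    | zero => intro _; simp
    | succ m ih =>
      intro hm
      have i1 := ih (by omega)
      have i2 := add m (by omega) _ h00
      have i3 := add m (by omega) _ h01
      rw [shift] at i3
      push_cast
      have i4 : (dS Q (γ 0 : G ⧸ M) (S (m + 1)) : ℤ) = dS Q (γ 0 : G ⧸ M) (S m) +
          ((dS Q (g * γ 0) ℓ1 : ℤ) - dS Q (γ 0 : G ⧸ M) ℓ1) := by
        rw [i2, i3]
        push_cast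
        ring
      rw [i4, i1]
      ring
  have hSd : S d = S 0 := by
    ext y
    show g ^ d * y ∈ ℓ ↔ g ^ 0 * y ∈ ℓ
    rw [hgd, pow_zero]
  have htau : (dS Q (g * γ 0) ℓ1 : ℤ) - dS Q (γ 0 : G ⧸ M) ℓ1 = 0 := by
    have i1 := lin d hd'
    rw [hSd] at i1
    have i2 : (d : ℤ) * ((dS Q (g * γ 0) ℓ1 : ℤ) - dS Q (γ 0 : G ⧸ M) ℓ1) = 0 := by linarith
    rcases mul_eq_zero.1 i2 with h | h
    · exfalso
      have : d = 0 := by exact_mod_cast h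
      omega
    · exact h
  have hA1 : dS Q (γ 0 : G ⧸ M) (S 1) = dS Q (γ 0 : G ⧸ M) (S 0) := by
    have i1 := lin 1 (by omega)
    rw [htau] at i1
    have i2 : (dS Q (γ 0 : G ⧸ M) (S 1) : ℤ) = dS Q (γ 0 : G ⧸ M) (S 0) := by
      rw [i1]; ring
    exact_mod_cast i2
  -- the distance of `γ 0` to the line
  have mk2 : ((γ (k + 1) : G) : G ⧸ M) ∈ ℓ := by
    obtain ⟨t, ht⟩ := hi
    refine ⟨t, ?_⟩
    have ht' : L.x i ^ t = (γ k)⁻¹ * γ (k + 1) := ht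
    rw [ht', mul_inv_cancel_left]
  have hA0 : dS Q (γ 0 : G ⧸ M) (S 0) = k := by
    have hS0 : S 0 = ℓ := by
      ext y
      show g ^ 0 * y ∈ ℓ ↔ y ∈ ℓ
      rw [pow_zero, one_mul]
    rw [hS0]
    apply le_antisymm
    · have i1 := dS_le Q (γ 0 : G ⧸ M) mk0
      have i2 := D.Qd (Nat.zero_le k) (by omega)
      omega
    · obtain ⟨p, hp, e⟩ := dS_mem Q (γ 0 : G ⧸ M) (S := ℓ) ⟨_, mk0⟩
      have i1 := ln_diam D.C D.hQ1 hp mk2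
      have i2 := D.Qd (Nat.zero_le (k + 1)) (by omega)
      have i3 := Q.d_tri (γ 0 : G ⧸ M) p (γ (k + 1))
      omega
  -- the translate of the line meets the geodesic
  obtain ⟨j, hj1, hj2, g', hg', hj3⟩ := aTransfer G H c θ T L n M D.F E Θ D.C Q D.hQ1 D.hQ2 γ l
    D.hγ D.hQγ D.hang K' k (by omega) h3 hbig i hi hn' g (hg _ (by omega)) (hg _ (by omega))
  have hjm : g * γ j ∈ ℓ := by
    obtain ⟨t, ht⟩ := hj3
    refine ⟨t, ?_⟩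
    have ht' : L.x i ^ t = (γ k)⁻¹ * g' * γ j := ht
    rw [ht', ← hg', ← QuotientGroup.mk_mul]
    congr 1
    group
  have hjS : ((γ j : G) : G ⧸ M) ∈ S 1 := by
    show g ^ 1 * (γ j : G ⧸ M) ∈ ℓ
    rw [pow_one]; exact hjm
  have hjl : j ≤ l := by omega
  have hjk : j = k ∨ j = k + 1 := by
    have i1 := dS_le Q (γ 0 : G ⧸ M) hjS
    rw [hA1, hA0, D.Qd (Nat.zero_le j) hjl] at i1
    obtain ⟨p, hp, e⟩ := dS_mem Q (γ 0 : G ⧸ M) (neS 1)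
    rw [hA1, hA0] at e
    have hp' : g * p ∈ ℓ := by
      have : g ^ 1 * p ∈ ℓ := hp
      rwa [pow_one] at this
    have i2 := ln_diam D.C D.hQ1 hp' hjm
    rw [Q.d_mul] at i2
    have i3 := Q.d_tri (γ 0 : G ⧸ M) p (γ j)
    rw [D.Qd (Nat.zero_le j) hjl] at i3
    omega
  have hjl2 : ((γ j : G) : G ⧸ M) ∈ ℓ := by
    rcases hjk with rfl | rfl
    · exact mk0
    · exact mk2
  obtain ⟨t1, e1⟩ := hjl2
  obtain ⟨t2, e2⟩ := hjm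
  refine ⟨t2 - t1, ?_⟩
  rw [e1] at e2
  have e3 : g = ((γ k * L.x i ^ t2 : G) : G ⧸ M) * ((γ k * L.x i ^ t1 : G) : G ⧸ M)⁻¹ := by
    rw [← e2, mul_inv_cancel_right]
  rw [e3, ← QuotientGroup.mk_inv, ← QuotientGroup.mk_mul]
  congr 1
  rw [mul_inv_rev, zpow_sub]
  group

end GD

end Pool.Agent.H362.SF
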